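import Pool.Agent.Dia.BadQ

/-!
# `bad_path` with a constant `κ` which does not depend on `ε` and `δ`

The proof is the proof of `bad_path` (module BadQ).
-/

set_option linter.unusedSectionVars false

namespace Dia
open Finset PGr Pool.Agent.DiamP Pool.Agent.DiamP.Hv

theorem bad_path_unif : ∃ κ : ℝ, 0 < κ ∧ ∀ {ε δ : ℝ}, 0 < ε → ε < 1 → 0 < δ →
    ∃ n0 : ℕ, ∀ n : ℕ, n0 ≤ n → sVE n ε (fun v e => pairN n v e (fun E X =>
      ∃ x y : X, κ * ((torso E X).dist x y + Real.log n) < E.dist x.1 y.1)) * rho ^ n ≤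
        δ * (n : ℝ) ^ (-(7 / 2) : ℝ) := by
  obtain ⟨θ, Λ, hθ, hΛ, hs, hsum⟩ := exp_mom
  obtain ⟨K, hK, hup⟩ := sum_up
  have hrho := BadQ_rho
  have hR0 := R0_pos
  have hG0 := G0_pos
  have hD0 : 1 ≤ D0 := D0_range.1
  set κ : ℝ := max (Real.log Λ / θ) (10 / θ) with hκdef
  have hκ : 0 < κ := lt_of_lt_of_le (by positivity) (le_max_right _ _)
  have hκ1 : Λ ≤ Real.exp (θ * κ) := by
    have h1 : Real.log Λ / θ ≤ κ := le_max_left _ _
    rw [div_le_iff₀ hθ] at h1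
    calc Λ = Real.exp (Real.log Λ) := (Real.exp_log (by linarith)).symm
      _ ≤ Real.exp (θ * κ) := Real.exp_le_exp.2 (by linarith)
  have hκ2 : 10 ≤ θ * κ := by
    have h1 : 10 / θ ≤ κ := le_max_right _ _
    rw [div_le_iff₀ hθ] at h1
    linarith
  refine ⟨κ, hκ, fun {ε δ} hε hε1 hδ => ?_⟩
  obtain ⟨n0, hn0⟩ := exists_nat_ge (4 * K * G0 / δ)
  refine ⟨max n0 1, fun n hn => ?_⟩
  have hn1 : 1 ≤ n := le_trans (le_max_right _ _) hn
  have hnn : (1 : ℝ) ≤ n := by exact_mod_cast hn1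
  have hnpos : (0 : ℝ) < n := by linarith
  have hn2 : 4 * K * G0 / δ ≤ n := hn0.trans (by exact_mod_cast le_trans (le_max_left _ _) hn)
  have hlog : 0 ≤ Real.log n := Real.log_nonneg hnn
  rw [BadQ_mul]
  have hexp : Real.exp (-(θ * κ * Real.log n)) ≤ (n : ℝ) ^ (-10 : ℝ) := by
    rw [Real.rpow_def_of_pos hnpos]
    apply Real.exp_le_exp.2
    nlinarith
  have h2 : sVE n ε (fun v e => pairN n v e (fun E X =>
      ∃ x y : X, κ * ((torso E X).dist x y + Real.log n) < E.dist x.1 y.1) * rho ^ n) ≤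
      sVE n ε (fun v e => kP PGT0 v e * R0 ^ v * D0 ^ e *
        (G0 * ((n : ℝ) ^ 2 * ((3 * n + 1) * (n : ℝ) ^ (-10 : ℝ))))) := by
    refine BadQ_mono fun v e hv he _ => ?_
    have h3 := mul_le_mul_of_nonneg_right (pair_path n v e hθ.le hκ.le hlog)
      (pow_nonneg hrho.le n)
    refine h3.trans ?_
    have h4 : ∑ m ∈ range (e + 1), Real.exp (-(θ * κ * (m + Real.log n))) *
        cvL (List.replicate m (dT θ) ++ SL (rN ⊤) (dN ⊤) (gN ⊤) v (e - m)) n * rho ^ n ≤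
        ∑ m ∈ range (e + 1), (n : ℝ) ^ (-10 : ℝ) * (R0 ^ v * D0 ^ e * G0) := by
      refine Finset.sum_le_sum fun m hm => ?_
      rw [Finset.mem_range] at hm
      rw [mul_assoc]
      have h5 := SL_path (BadQ_dT θ) hs m v (e - m) n
      have h6 : (∑' j, wt (dT θ) rho j) ^ m ≤ (Λ * D0) ^ m := by
        refine pow_le_pow_left₀ (tsum_nonneg fun j => ?_) hsum m
        exact mul_nonneg (BadQ_dT θ j) (pow_nonneg hrho.le j)
      have h7 : (∑' j, wt (dT θ) rho j) ^ m * (R0 ^ v * D0 ^ (e - m) * G0) ≤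
          Λ ^ m * (R0 ^ v * D0 ^ e * G0) := by
        have h8 : (0 : ℝ) ≤ R0 ^ v * D0 ^ (e - m) * G0 := by positivity
        refine (mul_le_mul_of_nonneg_right h6 h8).trans (le_of_eq ?_)
        have h9 : D0 ^ m * D0 ^ (e - m) = D0 ^ e := by
          rw [← pow_add]
          congr 1
          omega
        rw [← h9]
        ring
      have h10 : Real.exp (-(θ * κ * (m + Real.log n))) * Λ ^ m ≤ (n : ℝ) ^ (-10 : ℝ) := by
        have h11 : Λ ^ m ≤ Real.exp (θ * κ * m) := by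
          calc Λ ^ m ≤ (Real.exp (θ * κ)) ^ m := pow_le_pow_left₀ (by linarith) hκ1 m
            _ = Real.exp (θ * κ * m) := by rw [← Real.exp_nat_mul]; ring_nf
        have h12 : Real.exp (-(θ * κ * (m + Real.log n))) =
            Real.exp (-(θ * κ * m)) * Real.exp (-(θ * κ * Real.log n)) := by
          rw [← Real.exp_add]
          ring_nf
        have h13 : Real.exp (-(θ * κ * m)) * Real.exp (θ * κ * m) = 1 := by
          rw [← Real.exp_add]
          simp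
        rw [h12]
        have h14 : 0 < Real.exp (-(θ * κ * m)) := Real.exp_pos _
        have h15 : 0 < Real.exp (-(θ * κ * Real.log n)) := Real.exp_pos _
        calc Real.exp (-(θ * κ * m)) * Real.exp (-(θ * κ * Real.log n)) * Λ ^ m
            ≤ Real.exp (-(θ * κ * m)) * Real.exp (-(θ * κ * Real.log n)) *
              Real.exp (θ * κ * m) := mul_le_mul_of_nonneg_left h11 (by positivity)
          _ = (Real.exp (-(θ * κ * m)) * Real.exp (θ * κ * m)) *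
              Real.exp (-(θ * κ * Real.log n)) := by ring
          _ ≤ (n : ℝ) ^ (-10 : ℝ) := by rw [h13, one_mul]; exact hexp
      have h16 : (0 : ℝ) ≤ R0 ^ v * D0 ^ e * G0 := by positivity
      calc Real.exp (-(θ * κ * (m + Real.log n))) *
          (cvL (List.replicate m (dT θ) ++ SL (rN ⊤) (dN ⊤) (gN ⊤) v (e - m)) n * rho ^ n)
          ≤ Real.exp (-(θ * κ * (m + Real.log n))) * (Λ ^ m * (R0 ^ v * D0 ^ e * G0)) :=
            mul_le_mul_of_nonneg_left (h5.trans h7) (Real.exp_pos _).le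
        _ = (Real.exp (-(θ * κ * (m + Real.log n))) * Λ ^ m) * (R0 ^ v * D0 ^ e * G0) := by ring
        _ ≤ (n : ℝ) ^ (-10 : ℝ) * (R0 ^ v * D0 ^ e * G0) := mul_le_mul_of_nonneg_right h10 h16
    rw [Finset.sum_const, Finset.card_range, nsmul_eq_mul, ← Finset.sum_mul] at h4
    have hk := BadQ_kP PGT0 v e
    have hv2 : (v : ℝ) ^ 2 ≤ (n : ℝ) ^ 2 :=
      pow_le_pow_left₀ (by positivity) (by exact_mod_cast hv) 2
    have he2 : ((e + 1 : ℕ) : ℝ) ≤ 3 * n + 1 := by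
      push_cast
      have : (e : ℝ) ≤ 3 * n := by exact_mod_cast he
      linarith
    have hR : (0 : ℝ) ≤ R0 ^ v * D0 ^ e * G0 := by positivity
    have hn10 : (0 : ℝ) ≤ (n : ℝ) ^ (-10 : ℝ) := by positivity
    calc kP PGT0 v e * ((v : ℝ) ^ 2 * ∑ m ∈ range (e + 1),
          Real.exp (-(θ * κ * (m + Real.log n))) *
          cvL (List.replicate m (dT θ) ++ SL (rN ⊤) (dN ⊤) (gN ⊤) v (e - m)) n) * rho ^ n
        = kP PGT0 v e * ((v : ℝ) ^ 2 * ((∑ m ∈ range (e + 1),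
          Real.exp (-(θ * κ * (m + Real.log n))) *
          cvL (List.replicate m (dT θ) ++ SL (rN ⊤) (dN ⊤) (gN ⊤) v (e - m)) n) * rho ^ n)) := by
          ring
      _ ≤ kP PGT0 v e * ((v : ℝ) ^ 2 * (((e + 1 : ℕ) : ℝ) *
          ((n : ℝ) ^ (-10 : ℝ) * (R0 ^ v * D0 ^ e * G0)))) :=
          mul_le_mul_of_nonneg_left (mul_le_mul_of_nonneg_left h4 (by positivity)) hk
      _ ≤ kP PGT0 v e * ((n : ℝ) ^ 2 * ((3 * n + 1) *
          ((n : ℝ) ^ (-10 : ℝ) * (R0 ^ v * D0 ^ e * G0)))) := by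
          refine mul_le_mul_of_nonneg_left ?_ hk
          refine mul_le_mul hv2 ?_ (by positivity) (by positivity)
          exact mul_le_mul_of_nonneg_right he2 (by positivity)
      _ = _ := by ring
  refine h2.trans ?_
  rw [← BadQ_mul]
  have h17 : (n : ℝ) ^ (-10 : ℝ) = ((n : ℝ) ^ 10)⁻¹ := by
    rw [Real.rpow_neg hnpos.le]
    congr 1
    exact_mod_cast Real.rpow_natCast (n : ℝ) 10
  have h18 : (n : ℝ) ^ (-(7 / 2) : ℝ) ≥ ((n : ℝ) ^ 4)⁻¹ := by
    have : ((n : ℝ) ^ 4)⁻¹ = (n : ℝ) ^ (-4 : ℝ) := by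
      rw [Real.rpow_neg hnpos.le]
      congr 1
      exact_mod_cast (Real.rpow_natCast (n : ℝ) 4).symm
    rw [this]
    exact Real.rpow_le_rpow_of_exponent_le hnn (by norm_num)
  have h19 : (n : ℝ) ^ 2 * ((3 * n + 1) * (n : ℝ) ^ (-10 : ℝ)) ≤ 4 * ((n : ℝ) ^ 5)⁻¹ := by
    rw [h17]
    have : (n : ℝ) ^ 2 * ((3 * n + 1) * ((n : ℝ) ^ 10)⁻¹) = (3 * n + 1) * ((n : ℝ) ^ 8)⁻¹ := by
      field_simp
    rw [this]
    have h20 : (3 * (n : ℝ) + 1) * ((n : ℝ) ^ 8)⁻¹ ≤ (4 * n) * ((n : ℝ) ^ 8)⁻¹ :=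
      mul_le_mul_of_nonneg_right (by linarith) (by positivity)
    refine h20.trans ?_
    have h21 : (4 * (n : ℝ)) * ((n : ℝ) ^ 8)⁻¹ = 4 * ((n : ℝ) ^ 7)⁻¹ := by
      field_simp
    rw [h21]
    refine mul_le_mul_of_nonneg_left ?_ (by norm_num)
    apply inv_anti₀ (by positivity)
    exact pow_le_pow_right₀ hnn (by norm_num)
  have h22 : sVE n ε (fun v e => kP PGT0 v e * R0 ^ v * D0 ^ e) *
      (G0 * ((n : ℝ) ^ 2 * ((3 * n + 1) * (n : ℝ) ^ (-10 : ℝ)))) ≤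
      K * (G0 * (4 * ((n : ℝ) ^ 5)⁻¹)) := by
    refine mul_le_mul (hup n ε hε hn1) (mul_le_mul_of_nonneg_left h19 hG0.le) (by positivity) hK.le
  refine h22.trans ?_
  have h23 : K * (G0 * (4 * ((n : ℝ) ^ 5)⁻¹)) = (4 * K * G0 / δ) * (δ * ((n : ℝ) ^ 5)⁻¹) := by
    field_simp
  rw [h23]
  calc (4 * K * G0 / δ) * (δ * ((n : ℝ) ^ 5)⁻¹) ≤ n * (δ * ((n : ℝ) ^ 5)⁻¹) :=
        mul_le_mul_of_nonneg_right hn2 (by positivity)
    _ = δ * ((n : ℝ) ^ 4)⁻¹ := by field_simp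
    _ ≤ δ * (n : ℝ) ^ (-(7 / 2) : ℝ) := mul_le_mul_of_nonneg_left h18 hδ.le


end Dia
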