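import Pool.Agent.DiaB.RMark
import Pool.Agent.Dia.TMarkT
import Pool.Agent.DiamP.ForestSub

/-!
# The kernels of the restricted trees (Theorem B' of MP_d7a93a_pr)
-/

set_option linter.unusedSectionVars false

namespace Dia
open Finset Pool.Agent.DiamP
open scoped ENNReal Classical

/-- nonnegative coefficients -/
def PNN (P : PowerSeries ℝ) : Prop := ∀ n, 0 ≤ PowerSeries.coeff n P

theorem PNN.mul {P Q : PowerSeries ℝ} (hP : PNN P) (hQ : PNN Q) : PNN (P * Q) := by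
  intro n
  rw [PowerSeries.coeff_mul]
  exact sum_nonneg fun ij _ => mul_nonneg (hP _) (hQ _)

theorem PNN.add {P Q : PowerSeries ℝ} (hP : PNN P) (hQ : PNN Q) : PNN (P + Q) := by
  intro n
  rw [map_add]
  exact add_nonneg (hP n) (hQ n)

theorem PNN.C {c : ℝ} (hc : 0 ≤ c) : PNN (PowerSeries.C c) := by
  intro n
  rw [PowerSeries.coeff_C]
  split_ifs
  · exact hc
  · exact le_rfl

theorem PNN.one : PNN (1 : PowerSeries ℝ) := by
  have := PNN.C (c := 1) zero_le_one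
  rwa [map_one] at this

theorem PNN.two : PNN (2 : PowerSeries ℝ) := by
  have := PNN.one.add PNN.one
  rwa [one_add_one_eq_two] at this

theorem PNN.X : PNN (PowerSeries.X : PowerSeries ℝ) := by
  intro n
  rw [PowerSeries.coeff_X]
  split_ifs <;> norm_num

theorem PNN.le {P Q : PowerSeries ℝ} (h : PNN (P - Q)) (n : ℕ) :
    PowerSeries.coeff n Q ≤ PowerSeries.coeff n P := by
  have := h n
  rw [map_sub] at this
  linarith

theorem cf_mul (x : ℝ) (P Q : PowerSeries ℝ) : cf x (P * Q) = cv (cf x P) (cf x Q) := by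
  funext n
  unfold cf cv
  rw [PowerSeries.coeff_mul, Finset.sum_mul]
  refine sum_congr rfl fun ij hij => ?_
  rw [← mem_antidiagonal.1 hij, pow_add]
  ring

theorem cf_add (x : ℝ) (P Q : PowerSeries ℝ) (n : ℕ) : cf x (P + Q) n = cf x P n + cf x Q n := by
  unfold cf
  rw [map_add]
  ring

theorem cf_sub (x : ℝ) (P Q : PowerSeries ℝ) (n : ℕ) : cf x (P - Q) n = cf x P n - cf x Q n := by
  unfold cf
  rw [map_sub]
  ring

/-- bounded partial sums at the critical point -/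
def PBd (x : ℝ) (P : PowerSeries ℝ) (T : ℝ) : Prop := ∀ s : ℕ, ∑ n ∈ range s, cf x P n ≤ T

section
variable {x : ℝ}

theorem cf_nonneg (h0 : 0 < x) (h1 : x < 1) {P : PowerSeries ℝ} (hP : PNN P) (n : ℕ) :
    0 ≤ cf x P n := mul_nonneg (hP n) (pow_nonneg (yc_pos h0 h1).le n)

theorem PBd.nonneg {P : PowerSeries ℝ} {T : ℝ} (h : PBd x P T) : 0 ≤ T := by
  simpa using h 0

theorem PBd.mul (h0 : 0 < x) (h1 : x < 1) {P Q : PowerSeries ℝ} {T U : ℝ} (hP : PNN P)
    (hQ : PNN Q) (hT : PBd x P T) (hU : PBd x Q U) : PBd x (P * Q) (T * U) := by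
  intro s
  rw [cf_mul]
  refine (sum_cv_le (cf_nonneg h0 h1 hP) (cf_nonneg h0 h1 hQ) s).trans ?_
  exact mul_le_mul (hT s) (hU s) (sum_nonneg fun n _ => cf_nonneg h0 h1 hQ n) hT.nonneg

theorem PBd.add {P Q : PowerSeries ℝ} {T U : ℝ} (hT : PBd x P T) (hU : PBd x Q U) :
    PBd x (P + Q) (T + U) := by
  intro s
  have e : ∑ n ∈ range s, cf x (P + Q) n = ∑ n ∈ range s, cf x P n + ∑ n ∈ range s, cf x Q n := by
    rw [← sum_add_distrib]
    exact sum_congr rfl fun n _ => cf_add x P Q n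
  rw [e]
  exact add_le_add (hT s) (hU s)

theorem PBd.C {c : ℝ} (hc : 0 ≤ c) : PBd x (PowerSeries.C c) c := by
  intro s
  cases s with
  | zero => simpa using hc
  | succ s =>
    rw [sum_range_succ']
    have h1 : ∑ k ∈ range s, cf x (PowerSeries.C c) (k + 1) = 0 := by
      refine sum_eq_zero fun k _ => ?_
      unfold cf
      rw [PowerSeries.coeff_C, if_neg (by omega), zero_mul]
    rw [h1, zero_add]
    unfold cf
    rw [PowerSeries.coeff_C, if_pos rfl]
    simp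

theorem PBd.two : PBd x (2 : PowerSeries ℝ) 2 := by
  have h := PBd.C (x := x) (c := 2) (by norm_num)
  have e : (PowerSeries.C (2 : ℝ)) = (2 : PowerSeries ℝ) := map_ofNat _ 2
  rwa [e] at h

theorem PBd.X (h0 : 0 < x) (h1 : x < 1) : PBd x (PowerSeries.X : PowerSeries ℝ) (yc x) := by
  intro s
  have hy := yc_pos h0 h1
  have h2 : ∑ n ∈ range s, cf x PowerSeries.X n ≤ ∑ n ∈ range (s + 2), cf x PowerSeries.X n :=
    sum_le_sum_of_subset_of_nonneg (range_subset_range.2 (by omega)) fun n _ _ =>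
      cf_nonneg h0 h1 PNN.X n
  refine h2.trans (le_of_eq ?_)
  rw [sum_eq_single 1]
  · unfold cf
    rw [PowerSeries.coeff_one_X]
    simp
  · intro n _ hn
    unfold cf
    rw [PowerSeries.coeff_X, if_neg hn, zero_mul]
  · intro h
    exact absurd (mem_range.2 (by omega)) h

theorem PBd.mono (h0 : 0 < x) (h1 : x < 1) {P Q : PowerSeries ℝ} {T : ℝ} (h : PNN (P - Q))
    (hT : PBd x P T) : PBd x Q T := fun s =>
  (sum_le_sum fun n _ => mul_le_mul_of_nonneg_right (h.le n)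
    (pow_nonneg (yc_pos h0 h1).le n)).trans (hT s)

/-- the inverse of `1 - a` has nonnegative coefficients -/
theorem PNN.inv {P a : PowerSeries ℝ} (hP : P * (1 - a) = 1) (ha : PNN a)
    (ha0 : PowerSeries.coeff 0 a = 0) : PNN P := by
  have e : P = 1 + a * P := by linear_combination hP
  intro n
  induction n using Nat.strong_induction_on with
  | _ n ih =>
    rw [e, map_add, PowerSeries.coeff_mul]
    refine add_nonneg (PNN.one n) (sum_nonneg fun ij hij => ?_)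
    have hij' := mem_antidiagonal.1 hij
    rcases Nat.eq_zero_or_pos ij.1 with h | h
    · rw [h, ha0, zero_mul]
    · exact mul_nonneg (ha _) (ih _ (by omega))

/-! ### the classes -/

variable (Q : LT → Prop)

theorem w_nn (h0 : 0 < x) (t : LT) (u : Bool) : 0 ≤ t.w x u := by
  unfold LT.w
  positivity

theorem XQ_nn (h0 : 0 < x) (u : Bool) : PNN (XQ Q x u) := by
  intro n
  rw [XQ, PowerSeries.coeff_mk]
  refine sum_nonneg fun t _ => ?_
  split_ifs
  · exact w_nn h0 t u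
  · exact le_rfl

theorem Xp_nn (h0 : 0 < x) (u : Bool) : PNN (Xp x u) := by
  intro n
  rw [Xp, PowerSeries.coeff_mk]
  exact sum_nonneg fun t _ => w_nn h0 t u

theorem DX_coeff (u : Bool) (n : ℕ) : PowerSeries.coeff n (Xp x u - XQ Q x u) =
    ∑ t ∈ LT.all n, if ¬ Q t then t.w x u else 0 := by
  rw [map_sub, Xp, XQ, PowerSeries.coeff_mk, PowerSeries.coeff_mk, Xs, ← sum_sub_distrib]
  refine sum_congr rfl fun t _ => ?_
  by_cases h : Q t <;> simp [h]

theorem DX_nn (h0 : 0 < x) (u : Bool) : PNN (Xp x u - XQ Q x u) := by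
  intro n
  rw [DX_coeff]
  refine sum_nonneg fun t _ => ?_
  split_ifs
  · exact le_rfl
  · exact w_nn h0 t u

theorem cf_XQ (u : Bool) (n : ℕ) : cf x (XQ Q x u) n = ZN x u n Q := by
  unfold cf ZN XQ
  rw [PowerSeries.coeff_mk]

theorem cf_DX (u : Bool) (n : ℕ) : cf x (Xp x u - XQ Q x u) n = ZN x u n (fun t => ¬ Q t) := by
  unfold cf ZN
  rw [DX_coeff]
  congr 1
  refine sum_congr rfl fun t _ => ?_
  by_cases h : Q t <;> simp [h]

/-- `X X1 + 2 X X0` -/
noncomputable def bp (x : ℝ) : PowerSeries ℝ :=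
  PowerSeries.X * XQ Q x true + 2 * (PowerSeries.X * XQ Q x false)

/-- `X X1 + X X0` -/
noncomputable def bq (x : ℝ) : PowerSeries ℝ :=
  PowerSeries.X * XQ Q x true + PowerSeries.X * XQ Q x false

theorem bp_nn (h0 : 0 < x) : PNN (bp Q x) :=
  (PNN.X.mul (XQ_nn Q h0 true)).add (PNN.two.mul (PNN.X.mul (XQ_nn Q h0 false)))

theorem bq_nn (h0 : 0 < x) : PNN (bq Q x) :=
  (PNN.X.mul (XQ_nn Q h0 true)).add (PNN.X.mul (XQ_nn Q h0 false))

theorem bp_zero : PowerSeries.coeff 0 (bp Q x) = 0 := by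
  unfold bp
  simp

theorem bq_zero : PowerSeries.coeff 0 (bq Q x) = 0 := by
  unfold bq
  simp

theorem LpQ_inv' : LpQ Q x * (1 - bp Q x) = 1 := by
  have h := LpQ_inv Q x
  unfold bp
  linear_combination h

theorem LqQ_inv' : LqQ Q x * (1 - bq Q x) = 1 := by
  have h := LqQ_inv Q x
  unfold bq
  linear_combination h

theorem LpQ_nn (h0 : 0 < x) : PNN (LpQ Q x) := PNN.inv (LpQ_inv' Q) (bp_nn Q h0) (bp_zero Q)

theorem LqQ_nn (h0 : 0 < x) : PNN (LqQ Q x) := PNN.inv (LqQ_inv' Q) (bq_nn Q h0) (bq_zero Q)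

theorem XQ_true' (x : ℝ) (u : Bool) : XQ (fun _ => True) x u = Xp x u := by
  unfold XQ Xp Xs
  simp

theorem LpQ_true (x : ℝ) : LpQ (fun _ => True) x = Lp x := by
  unfold LpQ Lp
  rw [XQ_true', XQ_true']

theorem LqQ_true (x : ℝ) : LqQ (fun _ => True) x = Lq x := by
  unfold LqQ Lq
  rw [XQ_true', XQ_true']

theorem Lp_nn (h0 : 0 < x) : PNN (Lp x) := by
  have := LpQ_nn (fun _ => True) h0
  rwa [LpQ_true] at this

theorem Lq_nn (h0 : 0 < x) : PNN (Lq x) := by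
  have := LqQ_nn (fun _ => True) h0
  rwa [LqQ_true] at this

theorem Lp_diff : Lp x - LpQ Q x = Lp x * LpQ Q x *
    (PowerSeries.X * (Xp x true - XQ Q x true) +
      2 * (PowerSeries.X * (Xp x false - XQ Q x false))) := by
  have h1 := LpQ_inv Q x
  have h2 := Lp_inv x
  linear_combination (-Lp x) * h1 + LpQ Q x * h2

theorem Lq_diff : Lq x - LqQ Q x = Lq x * LqQ Q x *
    (PowerSeries.X * (Xp x true - XQ Q x true) +
      PowerSeries.X * (Xp x false - XQ Q x false)) := by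
  have h1 := LqQ_inv Q x
  have h2 := Lq_inv x
  linear_combination (-Lq x) * h1 + LqQ Q x * h2

theorem Lp_diff_nn (h0 : 0 < x) : PNN (Lp x - LpQ Q x) := by
  rw [Lp_diff]
  exact ((Lp_nn h0).mul (LpQ_nn Q h0)).mul ((PNN.X.mul (DX_nn Q h0 true)).add
    (PNN.two.mul (PNN.X.mul (DX_nn Q h0 false))))

theorem Lq_diff_nn (h0 : 0 < x) : PNN (Lq x - LqQ Q x) := by
  rw [Lq_diff]
  exact ((Lq_nn h0).mul (LqQ_nn Q h0)).mul ((PNN.X.mul (DX_nn Q h0 true)).add
    (PNN.X.mul (DX_nn Q h0 false)))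

theorem KPQ_nn (h0 : 0 < x) (h1 : x < 1) (u : Bool) (d : SignType) : PNN (KPQ Q x u d) := by
  have a := LpQ_nn Q h0
  have b := LqQ_nn Q h0
  have hx := PNN.C h0.le
  have hx' := PNN.C (c := 1 - x) (by linarith)
  unfold KPQ
  split_ifs
  · rw [pow_two]
    exact PNN.X.mul (hx.mul (a.mul a))
  · rw [pow_two, pow_two]
    exact PNN.X.mul ((hx.mul (a.mul a)).add (hx'.mul (b.mul b)))

theorem KP_diff (u : Bool) (d : SignType) : KP x u d - KPQ Q x u d =
    if u = true ∨ d = 1 then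
      PowerSeries.X * (PowerSeries.C x * ((Lp x - LpQ Q x) * (Lp x + LpQ Q x)))
    else PowerSeries.X * (PowerSeries.C x * ((Lp x - LpQ Q x) * (Lp x + LpQ Q x)) +
      PowerSeries.C (1 - x) * ((Lq x - LqQ Q x) * (Lq x + LqQ Q x))) := by
  unfold KP KPQ
  split_ifs
  · ring
  · ring

theorem KP_diff_nn (h0 : 0 < x) (h1 : x < 1) (u : Bool) (d : SignType) :
    PNN (KP x u d - KPQ Q x u d) := by
  rw [KP_diff]
  have a := (Lp_diff_nn Q h0).mul ((Lp_nn h0).add (LpQ_nn Q h0))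
  have b := (Lq_diff_nn Q h0).mul ((Lq_nn h0).add (LqQ_nn Q h0))
  have hx := PNN.C h0.le
  have hx' := PNN.C (c := 1 - x) (by linarith)
  split_ifs
  · exact PNN.X.mul (hx.mul a)
  · exact PNN.X.mul ((hx.mul a).add (hx'.mul b))

theorem kk_cf (u : Bool) (d : SignType) : kk x u d = cf x (KP x u d) := by
  unfold kk KP k1 k2
  split_ifs <;> rfl

theorem kkQ_nonneg (h0 : 0 < x) (h1 : x < 1) (u : Bool) (d : SignType) (n : ℕ) :
    0 ≤ kkQ Q x u d n := cf_nonneg h0 h1 (KPQ_nn Q h0 h1 u d) n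

theorem kkQ_le (h0 : 0 < x) (h1 : x < 1) (u : Bool) (d : SignType) (n : ℕ) :
    kkQ Q x u d n ≤ kk x u d n := by
  rw [kk_cf]
  exact mul_le_mul_of_nonneg_right ((KP_diff_nn Q h0 h1 u d).le n)
    (pow_nonneg (yc_pos h0 h1).le n)

/-- total of `Lp`, `Lq` -/
theorem Lp_bd (h0 : 0 < x) (h1 : x < 1) : PBd x (Lp x) (lW x (wc x)) := by
  obtain ⟨hw0, hw1, -⟩ := wc_spec h0 h1
  have h := sum_of_subst h0 h1 _ (P3_PB h0 h1) (P3_sum h0 h1 hw0.le hw1)
  rw [← Lp_eq] at h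
  intro s
  exact (h.summable.sum_le_tsum (range s) fun n _ => cf_nonneg h0 h1 (Lp_nn h0) n).trans
    (le_of_eq h.tsum_eq)

theorem Lq_bd (h0 : 0 < x) (h1 : x < 1) : PBd x (Lq x) (lW' x (wc x)) := by
  obtain ⟨hw0, hw1, -⟩ := wc_spec h0 h1
  have h := sum_of_subst h0 h1 _ (P2_PB h0 h1) (P2_sum h0 h1 hw0.le hw1)
  rw [← Lq_eq] at h
  intro s
  exact (h.summable.sum_le_tsum (range s) fun n _ => cf_nonneg h0 h1 (Lq_nn h0) n).trans
    (le_of_eq h.tsum_eq)

/-- **the deficit of the kernels** -/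
theorem kkQ_deficit (h0 : 0 < x) (h1 : x < 1) : ∃ K4 : ℝ, 0 < K4 ∧ ∀ (Q : LT → Prop) (q : ℝ),
    (∀ (u : Bool) (s : ℕ), ∑ m ∈ range s, ZN x u m (fun t => ¬ Q t) ≤ q) →
    ∀ (u : Bool) (d : SignType) (s : ℕ), ∑ n ∈ range s, (kk x u d n - kkQ Q x u d n) ≤ K4 * q := by
  have hy := yc_pos h0 h1
  obtain ⟨hT, hT'⟩ := lW_pos h0 h1
  set T := lW x (wc x) with hTd
  set T' := lW' x (wc x) with hTd'
  have hx1 : 0 < 1 - x := by linarith
  refine ⟨yc x * (x * ((T * T * (3 * yc x)) * (T + T))) +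
    yc x * ((1 - x) * ((T' * T' * (2 * yc x)) * (T' + T'))), by positivity,
    fun Q q hq u d s => ?_⟩
  have hq0 : 0 ≤ q := by simpa using hq true 0
  have bdX : ∀ u, PBd x (Xp x u - XQ Q x u) q := by
    intro u s
    rw [sum_congr rfl fun n _ => cf_DX Q u n]
    exact hq u s
  have hLp := Lp_bd h0 h1
  have hLq := Lq_bd h0 h1
  have hLpQ := PBd.mono h0 h1 (Lp_diff_nn Q h0) hLp
  have hLqQ := PBd.mono h0 h1 (Lq_diff_nn Q h0) hLq
  have b1 : PBd x (PowerSeries.X * (Xp x true - XQ Q x true) +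
      2 * (PowerSeries.X * (Xp x false - XQ Q x false))) (yc x * q + 2 * (yc x * q)) :=
    (PBd.mul h0 h1 PNN.X (DX_nn Q h0 true) (PBd.X h0 h1) (bdX true)).add
      (PBd.mul h0 h1 PNN.two (PNN.X.mul (DX_nn Q h0 false)) PBd.two
        (PBd.mul h0 h1 PNN.X (DX_nn Q h0 false) (PBd.X h0 h1) (bdX false)))
  have b2 : PBd x (PowerSeries.X * (Xp x true - XQ Q x true) +
      PowerSeries.X * (Xp x false - XQ Q x false)) (yc x * q + yc x * q) :=
    (PBd.mul h0 h1 PNN.X (DX_nn Q h0 true) (PBd.X h0 h1) (bdX true)).add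
      (PBd.mul h0 h1 PNN.X (DX_nn Q h0 false) (PBd.X h0 h1) (bdX false))
  have nb1 : PNN (PowerSeries.X * (Xp x true - XQ Q x true) +
      2 * (PowerSeries.X * (Xp x false - XQ Q x false))) :=
    (PNN.X.mul (DX_nn Q h0 true)).add (PNN.two.mul (PNN.X.mul (DX_nn Q h0 false)))
  have nb2 : PNN (PowerSeries.X * (Xp x true - XQ Q x true) +
      PowerSeries.X * (Xp x false - XQ Q x false)) :=
    (PNN.X.mul (DX_nn Q h0 true)).add (PNN.X.mul (DX_nn Q h0 false))
  have c1 : PBd x (Lp x - LpQ Q x) (T * T * (yc x * q + 2 * (yc x * q))) := by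
    rw [Lp_diff]
    exact PBd.mul h0 h1 ((Lp_nn h0).mul (LpQ_nn Q h0)) nb1
      (PBd.mul h0 h1 (Lp_nn h0) (LpQ_nn Q h0) hLp hLpQ) b1
  have c2 : PBd x (Lq x - LqQ Q x) (T' * T' * (yc x * q + yc x * q)) := by
    rw [Lq_diff]
    exact PBd.mul h0 h1 ((Lq_nn h0).mul (LqQ_nn Q h0)) nb2
      (PBd.mul h0 h1 (Lq_nn h0) (LqQ_nn Q h0) hLq hLqQ) b2
  have d1 : PBd x ((Lp x - LpQ Q x) * (Lp x + LpQ Q x))
      (T * T * (yc x * q + 2 * (yc x * q)) * (T + T)) :=
    PBd.mul h0 h1 (Lp_diff_nn Q h0) ((Lp_nn h0).add (LpQ_nn Q h0)) c1 (hLp.add hLpQ)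
  have d2 : PBd x ((Lq x - LqQ Q x) * (Lq x + LqQ Q x))
      (T' * T' * (yc x * q + yc x * q) * (T' + T')) :=
    PBd.mul h0 h1 (Lq_diff_nn Q h0) ((Lq_nn h0).add (LqQ_nn Q h0)) c2 (hLq.add hLqQ)
  have nd1 : PNN ((Lp x - LpQ Q x) * (Lp x + LpQ Q x)) :=
    (Lp_diff_nn Q h0).mul ((Lp_nn h0).add (LpQ_nn Q h0))
  have nd2 : PNN ((Lq x - LqQ Q x) * (Lq x + LqQ Q x)) :=
    (Lq_diff_nn Q h0).mul ((Lq_nn h0).add (LqQ_nn Q h0))
  have nx := PNN.C h0.le
  have nx' := PNN.C hx1.le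
  have e1 := PBd.mul h0 h1 nx nd1 (PBd.C h0.le) d1
  have e2 := PBd.mul h0 h1 nx' nd2 (PBd.C hx1.le) d2
  have f1 := PBd.mul h0 h1 PNN.X (nx.mul nd1) (PBd.X h0 h1) e1
  have f2 := PBd.mul h0 h1 PNN.X ((nx.mul nd1).add (nx'.mul nd2)) (PBd.X h0 h1) (e1.add e2)
  have key : ∑ n ∈ range s, (kk x u d n - kkQ Q x u d n) =
      ∑ n ∈ range s, cf x (KP x u d - KPQ Q x u d) n := by
    refine sum_congr rfl fun n _ => ?_
    rw [cf_sub, kk_cf]
    rfl
  rw [key, KP_diff]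
  split_ifs
  · refine (f1 s).trans ?_
    have : 0 ≤ yc x * ((1 - x) * ((T' * T' * (2 * yc x)) * (T' + T'))) * q := by positivity
    nlinarith
  · refine (f2 s).trans (le_of_eq ?_)
    ring

/-- lower bound for the coefficients of the restricted kernels -/
theorem KPQ_low (h0 : 0 < x) (h1 : x < 1) (u : Bool) (d : SignType) :
    PNN (KPQ Q x u d -
      PowerSeries.X * (PowerSeries.C x * (1 + PowerSeries.X * XQ Q x false))) := by
  have hx := PNN.C h0.le
  have hx' := PNN.C (c := 1 - x) (by linarith)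
  have a := LpQ_nn Q h0
  have b := LqQ_nn Q h0
  -- `LpQ - 1 = LpQ bp`
  have e1 : LpQ Q x - 1 = LpQ Q x * bp Q x := by linear_combination LpQ_inv' Q (x := x)
  have n1 : PNN (LpQ Q x - 1) := by
    rw [e1]
    exact a.mul (bp_nn Q h0)
  -- `LpQ ^ 2 - (1 + X XQ false)`
  have e2 : LpQ Q x ^ 2 - (1 + PowerSeries.X * XQ Q x false) =
      LpQ Q x * (LpQ Q x - 1) + (LpQ Q x - 1) * bp Q x +
        (PowerSeries.X * XQ Q x true + PowerSeries.X * XQ Q x false) := by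
    have : LpQ Q x - 1 = LpQ Q x * bp Q x := e1
    unfold bp at this ⊢
    linear_combination this
  have n2 : PNN (LpQ Q x ^ 2 - (1 + PowerSeries.X * XQ Q x false)) := by
    rw [e2]
    exact ((a.mul n1).add (n1.mul (bp_nn Q h0))).add
      ((PNN.X.mul (XQ_nn Q h0 true)).add (PNN.X.mul (XQ_nn Q h0 false)))
  unfold KPQ
  split_ifs
  · have e3 : PowerSeries.X * (PowerSeries.C x * LpQ Q x ^ 2) -
        PowerSeries.X * (PowerSeries.C x * (1 + PowerSeries.X * XQ Q x false)) =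
        PowerSeries.X * (PowerSeries.C x * (LpQ Q x ^ 2 - (1 + PowerSeries.X * XQ Q x false))) := by
      ring
    rw [e3]
    exact PNN.X.mul (hx.mul n2)
  · have e3 : PowerSeries.X * (PowerSeries.C x * LpQ Q x ^ 2 + PowerSeries.C (1 - x) * LqQ Q x ^ 2) -
        PowerSeries.X * (PowerSeries.C x * (1 + PowerSeries.X * XQ Q x false)) =
        PowerSeries.X * (PowerSeries.C x * (LpQ Q x ^ 2 - (1 + PowerSeries.X * XQ Q x false)) +
          PowerSeries.C (1 - x) * (LqQ Q x * LqQ Q x)) := by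
      ring
    rw [e3]
    exact PNN.X.mul ((hx.mul n2).add (hx'.mul (b.mul b)))

theorem kkQ_low1 (h0 : 0 < x) (h1 : x < 1) (u : Bool) (d : SignType) :
    x * yc x ≤ kkQ Q x u d 1 := by
  have h := (KPQ_low Q h0 h1 u d).le 1
  have hy := yc_pos h0 h1
  have e : PowerSeries.coeff 1 (PowerSeries.X *
      (PowerSeries.C x * (1 + PowerSeries.X * XQ Q x false))) = x := by
    rw [show (1 : ℕ) = 0 + 1 from rfl, PowerSeries.coeff_succ_X_mul, coeff_C_mul']
    simp
  rw [e] at h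
  unfold kkQ cf
  rw [pow_one]
  exact mul_le_mul_of_nonneg_right h hy.le

theorem kkQ_low2 (h0 : 0 < x) (h1 : x < 1) (u : Bool) (d : SignType) (m : ℕ) :
    x * yc x ^ 2 * ZN x false m Q ≤ kkQ Q x u d (m + 2) := by
  have h := (KPQ_low Q h0 h1 u d).le (m + 2)
  have hy := yc_pos h0 h1
  have e : PowerSeries.coeff (m + 2) (PowerSeries.X *
      (PowerSeries.C x * (1 + PowerSeries.X * XQ Q x false))) =
      x * PowerSeries.coeff m (XQ Q x false) := by
    rw [show m + 2 = (m + 1) + 1 from rfl, PowerSeries.coeff_succ_X_mul, coeff_C_mul', map_add,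
      PowerSeries.coeff_one, if_neg (by omega), zero_add, PowerSeries.coeff_succ_X_mul]
  rw [e] at h
  unfold kkQ
  have e2 : x * yc x ^ 2 * ZN x false m Q =
      x * PowerSeries.coeff m (XQ Q x false) * yc x ^ (m + 2) := by
    rw [← cf_XQ]
    unfold cf
    rw [pow_add]
    ring
  rw [e2]
  unfold cf
  exact mul_le_mul_of_nonneg_right h (by positivity)

end

end Dia
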