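import Pool.Agent.DiaB.ROcc
import Pool.Agent.DiaB.RKer
import Pool.Agent.Dia.Thm2A
import Pool.Agent.DiamP.WalkLow

/-!
# Trees with small range have positive probability (Theorem B' of MP_d7a93a_pr)
-/

set_option linter.unusedSectionVars false

namespace Dia
open Finset Pool.Agent.DiamP
open scoped ENNReal

variable {x : ℝ}

theorem RS_ZN (up : Bool) (N : ℕ) (P : LT → Prop) [DecidablePred P] :
    ZN x up N P = (∑ t ∈ LT.all N, if P t then t.w x up else 0) * yc x ^ N := by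
  unfold ZN
  congr 1
  refine Finset.sum_congr rfl fun t _ => ?_
  by_cases h : P t
  · rw [if_pos h, if_pos h]
  · rw [if_neg h, if_neg h]

theorem RS_nn (h0 : 0 < x) (h1 : x < 1) (up : Bool) (N : ℕ) (P : LT → Prop) :
    0 ≤ ZN x up N P := by
  classical
  rw [RS_ZN]
  refine mul_nonneg (sum_nonneg fun t _ => ?_) (pow_nonneg (yc_pos h0 h1).le N)
  split_ifs
  · exact w_nn h0 t up
  · exact le_rfl

theorem RS_mono (h0 : 0 < x) (h1 : x < 1) (up : Bool) (N : ℕ) {P P' : LT → Prop}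
    (h : ∀ t, P t → P' t) : ZN x up N P ≤ ZN x up N P' := by
  classical
  rw [RS_ZN, RS_ZN]
  refine mul_le_mul_of_nonneg_right (sum_le_sum fun t _ => ?_) (pow_nonneg (yc_pos h0 h1).le N)
  by_cases h2 : P t
  · rw [if_pos h2, if_pos (h t h2)]
  · rw [if_neg h2]
    split_ifs
    · exact w_nn h0 t up
    · exact le_rfl

theorem RS_compl (up : Bool) (N : ℕ) (P : LT → Prop) :
    ZN x up N P + ZN x up N (fun t => ¬ P t) = Xs x up N * yc x ^ N := by
  classical
  rw [RS_ZN, RS_ZN, ← add_mul, ← sum_add_distrib]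
  congr 1
  unfold Xs
  refine sum_congr rfl fun t _ => ?_
  by_cases h : P t <;> simp [h]

theorem RS_sum (h0 : 0 < x) (h1 : x < 1) {u : Bool} {P : LT → Prop} {q : ℝ} (hq : 0 ≤ q)
    (h : Zt x u P ≤ ENNReal.ofReal q) (S : Finset ℕ) : ∑ m ∈ S, ZN x u m P ≤ q := by
  rw [Zt_eq h0 h1] at h
  have h2 : ENNReal.ofReal (∑ m ∈ S, ZN x u m P) ≤ ENNReal.ofReal q := by
    rw [ENNReal.ofReal_sum_of_nonneg fun m _ => RS_nn h0 h1 u m _]
    exact (ENNReal.sum_le_tsum S).trans h
  exact (ENNReal.ofReal_le_ofReal_iff hq).1 h2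

/-- normalised restricted kernel -/
noncomputable def nkQ (Q : LT → Prop) (x : ℝ) (u : Bool) (d : SignType) (m : ℕ) : ℝ :=
  kkQ Q x u d m / kapg (alc x) (bec x) u d

noncomputable def nksQ (Q : LT → Prop) (x : ℝ) : Bool → List SignType → List (ℕ → ℝ)
  | _, [] => []
  | u, d :: p => nkQ Q x u d :: nksQ Q x (decide (d = -1)) p

theorem nksQ_len (Q : LT → Prop) (u : Bool) (p : List SignType) :
    (nksQ Q x u p).length = p.length := by
  induction p generalizing u with
  | nil => rfl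
  | cons d p ih =>
    show (nkQ Q x u d :: nksQ Q x (decide (d = -1)) p).length = _
    rw [List.length_cons, List.length_cons, ih]

theorem nksQ_eq (h0 : 0 < x) (h1 : x < 1) (Q : LT → Prop) (u : Bool) (p : List SignType) (n : ℕ) :
    cvL (kksQ Q x u p) n = pw x u p * cvL (nksQ Q x u p) n := by
  induction p generalizing u n with
  | nil =>
    show cvL [] n = 1 * cvL [] n
    rw [one_mul]
  | cons d p ih =>
    have ha := alc_pos h0 h1
    have hk := (TForest_kap h0 h1 u d).1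
    have hk0 : kapg (alc x) (bec x) u d ≠ 0 := by linarith
    show cv (kkQ Q x u d) (cvL (kksQ Q x (decide (d = -1)) p)) n =
      (kapg (alc x) (bec x) u d * pw x (decide (d = -1)) p) *
        cv (nkQ Q x u d) (cvL (nksQ Q x (decide (d = -1)) p)) n
    rw [cv_eq_range, cv_eq_range, Finset.mul_sum]
    refine Finset.sum_congr rfl fun i _ => ?_
    rw [ih]
    unfold nkQ
    field_simp

theorem nksQ_all (Q : LT → Prop) {R : (ℕ → ℝ) → Prop} (h : ∀ u d, R (nkQ Q x u d)) (u : Bool)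
    (p : List SignType) : ∀ q ∈ nksQ Q x u p, R q := by
  induction p generalizing u with
  | nil => intro q hq; exact absurd hq List.not_mem_nil
  | cons d p ih =>
    intro q hq
    rcases List.mem_cons.1 hq with rfl | hq
    · exact h u d
    · exact ih _ q hq

theorem far_rng {L : ℕ} {t : LT} (h : ¬ Near L t) : L ≤ t.rng := by
  rw [near_iff, not_not] at h
  obtain ⟨z, hz, hL⟩ := h
  have h1 := TOcc_rng hz t.zero_mem_labels
  have h2 := TOcc_rng t.zero_mem_labels hz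
  rcases le_abs.1 hL with h3 | h3 <;> omega

/-- the normalised restricted kernels are sub-laws -/
theorem nkQ_sub (h0 : 0 < x) (h1 : x < 1) : ∃ c K Kd C : ℝ, 0 < c ∧ 0 < K ∧ 0 < Kd ∧ 0 < C ∧
    ∀ L M : ℕ, 1 ≤ L → C * (M : ℝ) ^ (1 / 4 : ℝ) ≤ L → ∀ (u : Bool) (d : SignType),
      SubLaw c K (Kd / (L : ℝ) ^ 2) M (TForest_nk x u d) (nkQ (Near L) x u d) := by
  obtain ⟨c1, K1, hc1, hK1, hlaw⟩ := TForest_nk_law h0 h1
  obtain ⟨K4, hK4, hdef⟩ := kkQ_deficit h0 h1
  obtain ⟨Kf, hKf, hfar⟩ := far_bound h0 h1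
  obtain ⟨cf', Kx, hcf, hKx, hX⟩ := Xs_bounds h0 h1 false
  obtain ⟨C, hC, hrng⟩ := rng_large h0 h1 false (cf' / 2) (by positivity)
  have ha := alc_pos h0 h1
  have hb := bec_pos h0 h1
  have hy := yc_pos h0 h1
  set ab := alc x + bec x with hab
  have hab0 : 0 < ab := by positivity
  set c := min c1 (min (x * yc x / ab) (min (x * yc x ^ 2 / ab) (x * yc x ^ 2 * (cf' / 2) / ab)))
    with hcdef
  have hc : 0 < c := by
    rw [hcdef]
    refine lt_min hc1 (lt_min (by positivity) (lt_min (by positivity) (by positivity)))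
  refine ⟨c, K1, K4 * Kf / alc x, C, hc, hK1, by positivity, hC, fun L M hL hM u d => ?_⟩
  obtain ⟨hk1, hk2⟩ := TForest_kap h0 h1 u d
  have hk0 : 0 < kapg (alc x) (bec x) u d := by linarith
  have hL' : (0 : ℝ) < L := by exact_mod_cast hL
  have hq : ∀ (v : Bool) (s : ℕ), ∑ m ∈ range s, ZN x v m (fun t => ¬ Near L t) ≤
      Kf / (L : ℝ) ^ 2 := by
    intro v s
    refine RS_sum h0 h1 (by positivity) ?_ (range s)
    refine le_trans (le_of_eq ?_) (hfar v L hL)
    congr 1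
    funext t
    rw [near_iff, not_not]
  have hc_1 : c ≤ c1 := min_le_left _ _
  have hc_2 : c ≤ x * yc x / ab := (min_le_right _ _).trans (min_le_left _ _)
  have hc_3 : c ≤ x * yc x ^ 2 / ab :=
    (min_le_right _ _).trans ((min_le_right _ _).trans (min_le_left _ _))
  have hc_4 : c ≤ x * yc x ^ 2 * (cf' / 2) / ab :=
    (min_le_right _ _).trans ((min_le_right _ _).trans (min_le_right _ _))
  have hdiv : ∀ z : ℝ, 0 ≤ z → z / ab ≤ z / kapg (alc x) (bec x) u d := fun z hz =>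
    div_le_div_of_nonneg_left hz hk0 hk2
  refine ⟨TForest_mono (hlaw u d) hc_1 le_rfl, fun n => ?_, fun n => ?_, fun n hn hnM => ?_,
    fun s => ?_⟩
  · exact div_nonneg (kkQ_nonneg _ h0 h1 u d n) hk0.le
  · exact div_le_div_of_nonneg_right (kkQ_le _ h0 h1 u d n) hk0.le
  · have hn' : (1 : ℝ) ≤ n := by exact_mod_cast hn
    have hnp : (n : ℝ) ^ (-(3 / 2) : ℝ) ≤ 1 := Real.rpow_le_one_of_one_le_of_nonpos hn' (by norm_num)
    have hnp0 : 0 < (n : ℝ) ^ (-(3 / 2) : ℝ) := by positivity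
    unfold nkQ
    rcases Nat.lt_or_ge n 3 with h3 | h3
    · have h4 : n = 1 ∨ n = 2 := by omega
      rcases h4 with rfl | rfl
      · have h5 := kkQ_low1 (Near L) h0 h1 u d
        calc c * ((1 : ℕ) : ℝ) ^ (-(3 / 2) : ℝ) ≤ c * 1 := mul_le_mul_of_nonneg_left hnp hc.le
          _ ≤ x * yc x / ab := by rw [mul_one]; exact hc_2
          _ ≤ x * yc x / kapg (alc x) (bec x) u d := hdiv _ (by positivity)
          _ ≤ _ := div_le_div_of_nonneg_right h5 hk0.le
      · have h5 := kkQ_low2 (Near L) h0 h1 u d 0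
        have h6 : ZN x false 0 (Near L) = 1 := by
          classical
          rw [RS_ZN, LT.all_zero, sum_singleton, if_pos (near_nil hL), TAll_w_nil]
          simp
        rw [h6, mul_one] at h5
        calc c * ((2 : ℕ) : ℝ) ^ (-(3 / 2) : ℝ) ≤ c * 1 := mul_le_mul_of_nonneg_left hnp hc.le
          _ ≤ x * yc x ^ 2 / ab := by rw [mul_one]; exact hc_3
          _ ≤ x * yc x ^ 2 / kapg (alc x) (bec x) u d := hdiv _ (by positivity)
          _ ≤ _ := div_le_div_of_nonneg_right h5 hk0.le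
    · obtain ⟨m, rfl⟩ : ∃ m, n = m + 2 := ⟨n - 2, by omega⟩
      have hm1 : 1 ≤ m := by omega
      have hm' : (1 : ℝ) ≤ m := by exact_mod_cast hm1
      have h5 := kkQ_low2 (Near L) h0 h1 u d m
      have h6 := RS_compl (x := x) false m (Near L)
      have h7 := (hX m hm1).1
      have h8 : ZN x false m (fun t => ¬ Near L t) ≤ cf' / 2 * (m : ℝ) ^ (-(3 / 2) : ℝ) := by
        refine le_trans (RS_mono h0 h1 false m fun t ht => ?_) (hrng m hm1)
        have h9 : (L : ℝ) ≤ t.rng := by exact_mod_cast far_rng ht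
        refine le_trans ?_ h9
        refine le_trans ?_ hM
        refine mul_le_mul_of_nonneg_left ?_ hC.le
        refine Real.rpow_le_rpow (by positivity) ?_ (by norm_num)
        have : m ≤ M := by omega
        exact_mod_cast this
      have h9 : cf' / 2 * (m : ℝ) ^ (-(3 / 2) : ℝ) ≤ ZN x false m (Near L) := by linarith
      have h10 : ((m + 2 : ℕ) : ℝ) ^ (-(3 / 2) : ℝ) ≤ (m : ℝ) ^ (-(3 / 2) : ℝ) := by
        refine Real.rpow_le_rpow_of_nonpos (by linarith) ?_ (by norm_num)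
        push_cast; linarith
      calc c * ((m + 2 : ℕ) : ℝ) ^ (-(3 / 2) : ℝ) ≤ c * (m : ℝ) ^ (-(3 / 2) : ℝ) :=
            mul_le_mul_of_nonneg_left h10 hc.le
        _ ≤ (x * yc x ^ 2 * (cf' / 2) / ab) * (m : ℝ) ^ (-(3 / 2) : ℝ) :=
            mul_le_mul_of_nonneg_right hc_4 (by positivity)
        _ = (x * yc x ^ 2 * (cf' / 2 * (m : ℝ) ^ (-(3 / 2) : ℝ))) / ab := by ring
        _ ≤ (x * yc x ^ 2 * (cf' / 2 * (m : ℝ) ^ (-(3 / 2) : ℝ))) / kapg (alc x) (bec x) u d :=
            hdiv _ (by positivity)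
        _ ≤ (x * yc x ^ 2 * ZN x false m (Near L)) / kapg (alc x) (bec x) u d :=
            div_le_div_of_nonneg_right (mul_le_mul_of_nonneg_left h9 (by positivity)) hk0.le
        _ ≤ _ := div_le_div_of_nonneg_right h5 hk0.le
  · have h5 := hdef (Near L) _ hq u d s
    have e : ∑ n ∈ range s, (TForest_nk x u d n - nkQ (Near L) x u d n) =
        (∑ n ∈ range s, (kk x u d n - kkQ (Near L) x u d n)) / kapg (alc x) (bec x) u d := by
      rw [Finset.sum_div]
      refine sum_congr rfl fun n _ => ?_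
      unfold TForest_nk nkQ
      ring
    rw [e]
    have h6 : 0 ≤ K4 * (Kf / (L : ℝ) ^ 2) := by positivity
    calc _ ≤ K4 * (Kf / (L : ℝ) ^ 2) / kapg (alc x) (bec x) u d :=
          div_le_div_of_nonneg_right h5 hk0.le
      _ ≤ K4 * (Kf / (L : ℝ) ^ 2) / alc x := div_le_div_of_nonneg_left h6 ha hk1
      _ = _ := by ring

/-- one term of a convolution -/
theorem RS_le_cv {F G : ℕ → ℝ} (hF : ∀ n, 0 ≤ F n) (hG : ∀ n, 0 ≤ G n) (i j : ℕ) :
    F i * G j ≤ cv F G (i + j) := by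
  unfold cv
  exact single_le_sum (f := fun ij : ℕ × ℕ => F ij.1 * G ij.2)
    (fun ij _ => mul_nonneg (hF _) (hG _)) (mem_antidiagonal.2 (rfl : ((i, j) : ℕ × ℕ).1 + _ = i + j))

theorem strip_iff (L : ℕ) (p : List SignType) : Strip L p ↔ WPS L 0 p := by
  unfold Strip WPS
  simp only [zero_add]

/-- the first moment of the marked vertices -/
theorem count_low (h0 : 0 < x) (h1 : x < 1) (up : Bool) {N L : ℕ} (hL : 1 ≤ L) {ηF ηW : ℝ}
    (hηF : 0 ≤ ηF) (S : Finset ℕ) (hS : ∀ h ∈ S, h ≤ N)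
    (hnn : ∀ (p : List SignType) (n : ℕ), 0 ≤ cvL (nksQ (Near L) x up p) n)
    (hF : ∀ h ∈ S, ∀ p : List SignType, p.length = h → ηF ≤ cvL (nksQ (Near L) x up p) N)
    (hW : ∀ h ∈ S, ηW ≤ PW (alc x) (bec x) up h (Strip L)) :
    (S.card : ℝ) * (ηW * (ηF * x)) ≤ ((N : ℝ) + 1) * ZN x up N (fun t => t.rng ≤ 4 * L) := by
  classical
  have hy := yc_pos h0 h1
  -- upper bound
  have hup : (∑ h ∈ S, ∑ p ∈ paths h, if Strip L p then
      (∑ t ∈ LT.all N, t.w x up * ((LT.occQ (Near L) p t).map fnil).sum) * yc x ^ N else 0) ≤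
      ((N : ℝ) + 1) * ZN x up N (fun t => t.rng ≤ 4 * L) := by
    have e0 : ∀ p : List SignType, (if Strip L p then
        (∑ t ∈ LT.all N, t.w x up * ((LT.occQ (Near L) p t).map fnil).sum) * yc x ^ N else 0) =
        ∑ t ∈ LT.all N, t.w x up *
          (if Strip L p then ((LT.occQ (Near L) p t).map fnil).sum else 0) * yc x ^ N := by
      intro p
      split_ifs
      · rw [Finset.sum_mul]
      · simp
    have e1 : (∑ h ∈ S, ∑ p ∈ paths h, if Strip L p then
        (∑ t ∈ LT.all N, t.w x up * ((LT.occQ (Near L) p t).map fnil).sum) * yc x ^ N else 0) =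
        ∑ t ∈ LT.all N, t.w x up * (∑ h ∈ S, ∑ p ∈ paths h,
          (if Strip L p then ((LT.occQ (Near L) p t).map fnil).sum else 0)) * yc x ^ N := by
      calc _ = ∑ h ∈ S, ∑ p ∈ paths h, ∑ t ∈ LT.all N, t.w x up *
            (if Strip L p then ((LT.occQ (Near L) p t).map fnil).sum else 0) * yc x ^ N :=
            sum_congr rfl fun h _ => sum_congr rfl fun p _ => e0 p
        _ = ∑ h ∈ S, ∑ t ∈ LT.all N, ∑ p ∈ paths h, t.w x up *
            (if Strip L p then ((LT.occQ (Near L) p t).map fnil).sum else 0) * yc x ^ N :=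
            sum_congr rfl fun h _ => Finset.sum_comm
        _ = ∑ t ∈ LT.all N, ∑ h ∈ S, ∑ p ∈ paths h, t.w x up *
            (if Strip L p then ((LT.occQ (Near L) p t).map fnil).sum else 0) * yc x ^ N :=
            Finset.sum_comm
        _ = _ := by
            refine sum_congr rfl fun t _ => ?_
            simp only [Finset.mul_sum, Finset.sum_mul]
    rw [e1, RS_ZN, ← mul_assoc, ← Finset.sum_mul]
    refine mul_le_mul_of_nonneg_right ?_ (by positivity)
    rw [Finset.mul_sum]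
    refine sum_le_sum fun t ht => ?_
    have hsz := LT.mem_all.1 ht
    have h2 := occQ_count hL t S (by rw [hsz]; exact hS)
    have h3 := mul_le_mul_of_nonneg_left h2 (w_nn h0 t up)
    refine le_trans (le_of_eq ?_) (h3.trans (le_of_eq ?_))
    · congr 1
    · rw [hsz]
      by_cases hr : t.rng ≤ 4 * L
      · rw [if_pos hr, if_pos hr]
        ring
      · rw [if_neg hr, if_neg hr]
        ring
  refine le_trans ?_ hup
  rw [← nsmul_eq_mul, ← Finset.sum_const]
  refine sum_le_sum fun h hh => ?_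
  -- one height
  have h2 : PW (alc x) (bec x) up h (Strip L) * (ηF * x) ≤ ∑ p ∈ paths h, if Strip L p then
      (∑ t ∈ LT.all N, t.w x up * ((LT.occQ (Near L) p t).map fnil).sum) * yc x ^ N else 0 := by
    have e2 : PW (alc x) (bec x) up h (Strip L) = ∑ p ∈ paths h,
        if Strip L p then pwg (alc x) (bec x) up p else 0 := by
      unfold PW
      refine sum_congr rfl fun p _ => ?_
      by_cases hp : Strip L p <;> simp [hp]
    rw [e2, Finset.sum_mul]
    refine sum_le_sum fun p hp => ?_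
    have hlen := mem_paths.1 hp
    split_ifs with hst
    · rw [markQ]
      have hF' := hF h hh p hlen
      have hpw : 0 ≤ pw x up p := TForest_pw_nonneg h0 h1 up p
      have h3 : cvL (kksQ (Near L) x up p) N * ((∑ s ∈ LT.all 0, s.w x (pst up p) * fnil s) *
          yc x ^ 0) ≤ cv (cvL (kksQ (Near L) x up p))
          (fun m => (∑ s ∈ LT.all m, s.w x (pst up p) * fnil s) * yc x ^ m) N := by
        have h4 := RS_le_cv (F := cvL (kksQ (Near L) x up p))
          (G := fun m => (∑ s ∈ LT.all m, s.w x (pst up p) * fnil s) * yc x ^ m)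
          (fun n => by
            rw [nksQ_eq h0 h1]
            exact mul_nonneg hpw (hnn p n))
          (fun m => mul_nonneg (sum_nonneg fun s _ => mul_nonneg (w_nn h0 s _) (by
            unfold fnil; split_ifs <;> norm_num)) (by positivity)) N 0
        exact h4
      refine le_trans ?_ h3
      have h5 : x ≤ (∑ s ∈ LT.all 0, s.w x (pst up p) * fnil s) * yc x ^ 0 := by
        rw [LT.all_zero, sum_singleton, TAll_w_nil, pow_zero, mul_one]
        unfold fnil
        rw [if_pos rfl, mul_one]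
        split_ifs
        · exact le_rfl
        · exact h1.le
      rw [nksQ_eq h0 h1]
      have h6 : pwg (alc x) (bec x) up p = pw x up p := rfl
      rw [h6, ← mul_assoc]
      exact mul_le_mul (mul_le_mul_of_nonneg_left hF' hpw) h5 h0.le (mul_nonneg hpw (hnn p N))
    · rw [zero_mul]
  refine le_trans ?_ h2
  exact mul_le_mul_of_nonneg_right (hW h hh) (mul_nonneg hηF h0.le)

/-- **(B1')** trees with small range have positive probability -/
theorem rng_small_low (h0 : 0 < x) (h1 : x < 1) (up : Bool) {c : ℝ} (hc : 0 < c) :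
    ∃ η : ℝ, 0 < η ∧ ∃ N0 : ℕ, ∀ N : ℕ, N0 ≤ N → η * (N : ℝ) ^ (-(3 / 2) : ℝ) ≤
      ZN x up N (fun t => (t.rng : ℝ) ≤ c * (N : ℝ) ^ (1 / 4 : ℝ)) := by
  obtain ⟨cl, Kl, Kd, C, hcl, hKl, hKd, hC, hsub⟩ := nkQ_sub h0 h1
  have hcrit : Crit (alc x) (bec x) := ⟨alc_pos h0 h1, bec_pos h0 h1, alc_bec h0 h1⟩
  obtain ⟨ηW, hηW, L0, hstrip⟩ := stripW_low hcrit (C := 128 / c ^ 2) (by positivity)
  obtain ⟨ηF, hηF, N1, hforest⟩ := forest_sub_low hcl Kl (ε := (c / (8 * C)) ^ 4 / 2)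
    (D := 64 * Kd / c ^ 2) (a := 1) (A := 2) (by positivity) (by positivity) one_pos (by norm_num)
  refine ⟨ηW * (ηF * x) / 4, by positivity, ?_⟩
  -- `N` large
  obtain ⟨N0, hN01, hN02⟩ : ∃ N0 : ℕ, N1 + 16 ≤ N0 ∧ ∀ N : ℕ, N0 ≤ N →
      8 / c ≤ (N : ℝ) ^ (1 / 4 : ℝ) ∧ 8 * (L0 : ℝ) / c ≤ (N : ℝ) ^ (1 / 4 : ℝ) ∧
      2 / (c / (8 * C)) ^ 4 ≤ N := by
    have t1 : Filter.Tendsto (fun N : ℕ => (N : ℝ) ^ (1 / 4 : ℝ)) Filter.atTop Filter.atTop :=
      (tendsto_rpow_atTop (by norm_num)).comp tendsto_natCast_atTop_atTop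
    have e1 := t1.eventually_ge_atTop (8 / c)
    have e2 := t1.eventually_ge_atTop (8 * (L0 : ℝ) / c)
    have e3 := (tendsto_natCast_atTop_atTop (R := ℝ)).eventually_ge_atTop (2 / (c / (8 * C)) ^ 4)
    obtain ⟨N2, hN2⟩ := Filter.eventually_atTop.1 (e1.and (e2.and e3))
    exact ⟨N2 + N1 + 16, by omega, fun N hN => hN2 N (by omega)⟩
  refine ⟨N0, fun N hN => ?_⟩
  obtain ⟨g1, g2, g3⟩ := hN02 N hN
  have hN1 : 1 ≤ N := by omega
  have hN' : (0 : ℝ) < N := by exact_mod_cast hN1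
  set r := (N : ℝ) ^ (1 / 4 : ℝ) with hr
  have hr0 : 0 < r := by positivity
  set q := (N : ℝ) ^ (1 / 2 : ℝ) with hq
  have hq0 : 0 < q := by positivity
  have hqq : q * q = N := by rw [hq, ← Real.rpow_add hN']; norm_num
  have hrr : r ^ 2 = q := by
    rw [hr, hq, ← Real.rpow_natCast, ← Real.rpow_mul hN'.le]; norm_num
  have hr4 : r ^ 4 = N := by
    rw [show r ^ 4 = (r ^ 2) * (r ^ 2) by ring, hrr, hqq]
  set L := ⌊c * r / 4⌋₊ with hL
  have hL1 : (L : ℝ) ≤ c * r / 4 := Nat.floor_le (by positivity)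
  have hcr : 8 ≤ c * r := by
    rw [div_le_iff₀ hc] at g1
    linarith
  have hL2 : c * r / 8 ≤ L := by
    have := Nat.lt_floor_add_one (c * r / 4)
    rw [← hL] at this
    linarith
  have hLone : 1 ≤ L := by
    have h2 : (1 : ℝ) ≤ L := by linarith
    exact_mod_cast h2
  have hLL0 : L0 ≤ L := by
    have h2 : (L0 : ℝ) ≤ L := by
      rw [div_le_iff₀ hc] at g2
      linarith
    exact_mod_cast h2
  have hLpos : (0 : ℝ) < L := by exact_mod_cast hLone
  -- `M`
  set M := ⌊((L : ℝ) / C) ^ 4⌋₊ with hM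
  have hM1 : (M : ℝ) ≤ ((L : ℝ) / C) ^ 4 := Nat.floor_le (by positivity)
  have hMC : C * (M : ℝ) ^ (1 / 4 : ℝ) ≤ L := by
    have h2 : (M : ℝ) ^ (1 / 4 : ℝ) ≤ (((L : ℝ) / C) ^ 4) ^ (1 / 4 : ℝ) :=
      Real.rpow_le_rpow (Nat.cast_nonneg _) hM1 (by norm_num)
    have h3 : (((L : ℝ) / C) ^ 4) ^ (1 / 4 : ℝ) = (L : ℝ) / C := by
      rw [← Real.rpow_natCast, ← Real.rpow_mul (by positivity)]
      norm_num
    rw [h3] at h2
    have h4 := mul_le_mul_of_nonneg_left h2 hC.le
    rwa [mul_div_cancel₀ _ hC.ne'] at h4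
  have hMε : (c / (8 * C)) ^ 4 / 2 * N ≤ M := by
    have h2 : (c / (8 * C)) ^ 4 * N ≤ ((L : ℝ) / C) ^ 4 := by
      rw [← hr4, ← mul_pow]
      refine pow_le_pow_left₀ (by positivity) ?_ 4
      rw [le_div_iff₀ hC]
      have : c / (8 * C) * r * C = c * r / 8 := by field_simp
      rw [this]
      exact hL2
    have h3 := Nat.lt_floor_add_one (((L : ℝ) / C) ^ 4)
    rw [← hM] at h3
    have h4 : 2 ≤ (c / (8 * C)) ^ 4 * N := by
      rw [div_le_iff₀ (by positivity)] at g3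
      linarith
    linarith
  have hsub' := hsub L M hLone hMC
  have hDq : Kd / (L : ℝ) ^ 2 * q ≤ 64 * Kd / c ^ 2 := by
    rw [div_mul_eq_mul_div, div_le_div_iff₀ (by positivity) (by positivity)]
    have h2 : c ^ 2 * q ≤ 64 * (L : ℝ) ^ 2 := by
      have h3 : (c * r / 8) ^ 2 ≤ (L : ℝ) ^ 2 := pow_le_pow_left₀ (by positivity) hL2 2
      have h4 : (c * r / 8) ^ 2 = c ^ 2 * q / 64 := by rw [← hrr]; ring
      rw [h4] at h3
      linarith
    nlinarith
  -- the heights
  set S := Icc ⌈q⌉₊ ⌊2 * q⌋₊ with hS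
  have hq4 : 4 ≤ q := by
    rw [hq, ← Real.sqrt_eq_rpow]
    refine Real.le_sqrt_of_sq_le ?_
    have : (16 : ℝ) ≤ N := by
      have : 16 ≤ N := by omega
      exact_mod_cast this
    linarith
  have hSmem : ∀ h ∈ S, q ≤ h ∧ (h : ℝ) ≤ 2 * q := by
    intro h hh
    obtain ⟨a1, a2⟩ := mem_Icc.1 hh
    refine ⟨(Nat.le_ceil q).trans (by exact_mod_cast a1), ?_⟩
    exact le_trans (by exact_mod_cast a2) (Nat.floor_le (show 0 ≤ 2 * q by positivity))
  have hScard : q / 2 ≤ (S.card : ℝ) := by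
    rw [hS, Nat.card_Icc]
    have a1 : (⌈q⌉₊ : ℝ) < q + 1 := Nat.ceil_lt_add_one hq0.le
    have a2 : 2 * q < ⌊2 * q⌋₊ + 1 := Nat.lt_floor_add_one _
    have a3 : ⌈q⌉₊ ≤ ⌊2 * q⌋₊ + 1 := by
      have : (⌈q⌉₊ : ℝ) ≤ (⌊2 * q⌋₊ : ℝ) + 1 := by linarith
      exact_mod_cast this
    rw [Nat.cast_sub a3]
    push_cast
    linarith
  have hlaws : ∀ p : List SignType, ∀ f ∈ nksQ (Near L) x up p,
      ∃ g, SubLaw cl Kl (Kd / (L : ℝ) ^ 2) M g f := fun p =>
    nksQ_all (Near L) (R := fun f => ∃ g, SubLaw cl Kl (Kd / (L : ℝ) ^ 2) M g f)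
      (fun u d => ⟨_, hsub' u d⟩) up p
  have hmain := count_low h0 h1 up (N := N) (L := L) hLone (ηF := ηF / N) (ηW := ηW)
    (by positivity) S (fun h hh => by
      have h2 := (hSmem h hh).2
      have h3 : (h : ℝ) ≤ N := by nlinarith
      exact_mod_cast h3)
    (fun p n => by
      obtain ⟨_, _, _, hL0, _, _⟩ := sub_deficit _ (hlaws p)
      exact hL0 n)
    (fun h hh p hp => by
      obtain ⟨a1, a2⟩ := hSmem h hh
      refine hforest N (by omega) _ M hDq hMε _ (hlaws p) ?_ ?_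
      · rw [nksQ_len, hp, one_mul]
        exact a1
      · rw [nksQ_len, hp]
        exact a2)
    (fun h hh => by
      obtain ⟨a1, a2⟩ := hSmem h hh
      have h2 := hstrip L h hLL0 (by
        refine a2.trans ?_
        have h3 : (c * r / 8) ^ 2 ≤ (L : ℝ) ^ 2 := pow_le_pow_left₀ (by positivity) hL2 2
        have h4 : (c * r / 8) ^ 2 = c ^ 2 * q / 64 := by rw [← hrr]; ring
        rw [h4] at h3
        rw [div_mul_eq_mul_div, le_div_iff₀ (by positivity)]
        nlinarith) up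
      rw [← W_st_eq] at h2
      rwa [W_PW_congr (alc x) (bec x) up h (strip_iff L)])
  -- conclusion
  have hmono : ZN x up N (fun t => t.rng ≤ 4 * L) ≤
      ZN x up N (fun t => (t.rng : ℝ) ≤ c * r) := by
    refine RS_mono h0 h1 up N fun t ht => ?_
    have h2 : (t.rng : ℝ) ≤ ((4 * L : ℕ) : ℝ) := by exact_mod_cast ht
    push_cast at h2
    linarith
  refine le_trans ?_ hmono
  have hZ := RS_nn h0 h1 up N (fun t => t.rng ≤ 4 * L)
  have hN1' : (N : ℝ) + 1 ≤ 2 * N := by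
    have : (1 : ℝ) ≤ N := by exact_mod_cast hN1
    linarith
  have h5 : q / 2 * (ηW * (ηF / N * x)) ≤ 2 * N * ZN x up N (fun t => t.rng ≤ 4 * L) := by
    refine le_trans (mul_le_mul_of_nonneg_right hScard (by positivity)) (hmain.trans ?_)
    exact mul_le_mul_of_nonneg_right hN1' hZ
  have h6 : (N : ℝ) ^ (-(3 / 2) : ℝ) = q / (N * N) := by
    rw [eq_div_iff (by positivity), hq]
    have e : (N : ℝ) * N = (N : ℝ) ^ (2 : ℝ) := by
      rw [show (2 : ℝ) = ((2 : ℕ) : ℝ) by norm_num, Real.rpow_natCast]; ring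
    rw [e, ← Real.rpow_add hN']
    norm_num
  rw [h6]
  have h7 : 2 * (N : ℝ) * (ηW * (ηF * x) / 4 * (q / (N * N))) = q / 2 * (ηW * (ηF / N * x)) := by
    field_simp
    ring
  have h8 : 2 * (N : ℝ) * (ηW * (ηF * x) / 4 * (q / (N * N))) ≤
      2 * N * ZN x up N (fun t => t.rng ≤ 4 * L) := by rw [h7]; exact h5
  exact le_of_mul_le_mul_left h8 (by positivity)

end Dia
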