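import Pool.Agent.DiamP.SubChap4
import Pool.Agent.DiaC.HerSys
import Pool.Agent.DiaC.HerTree
import Pool.Agent.DiaB.RSmall

/-!
# Rigid maps of small diameter have positive weight in windows ((B2') of MP_d7a93a_pr)
-/

set_option linter.unusedSectionVars false

namespace Dia
open Finset PGr
open scoped ENNReal Classical

variable {x : ℝ}

theorem SubSys.toSub {x y : ℝ} {ρ a z S P R Y ρ' a' z' S' P' R' Y' : ℕ → ℝ}
    (h : SubSys x y ρ a z S P R Y ρ' a' z' S' P' R' Y') :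
    Pool.Agent.DiamP.Sub x y ρ a z S P R Y ρ' a' z' S' P' R' Y' where
  ρ_nonneg := h.ρ0
  a_nonneg := h.a0
  z_nonneg := h.z0
  S_nonneg := h.S0
  P_nonneg := h.P0
  R_nonneg := h.R0
  Y_nonneg := h.Y0
  ρ_le := h.ρle
  a_le := h.ale
  z_le := h.zle
  S_le := h.Sle
  P_le := h.Ple
  R_le := h.Rle
  Y_le := h.Yle
  a_eq := fun n hn => by
    have h1 := h.ha n
    have h2 : Pool.Agent.DiamP.one0 n = 0 := by
      unfold Pool.Agent.DiamP.one0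
      rw [if_neg (by omega)]
    rw [h2, zero_add] at h1
    exact h1
  z_succ := fun n => (h.hz n).le
  Y_eq := h.hY
  S_eq := h.hS
  P_eq := h.hP
  R_eq := h.hR

/-- **Chapter 4**, lower bound for bounded diameter -/
theorem chap4_sub (h0 : 37 / 1000 ≤ x) (h1 : x ≤ 476 / 10000) {cb : ℝ} (hcb : 0 < cb) :
    ∃ A c' : ℝ, 0 < A ∧ 0 < c' ∧ ∃ n0 : ℕ, ∀ L n : ℕ, n0 ≤ n →
      cb * (n : ℝ) ^ (-(5 / 2) : ℝ) ≤ aLS x (yc x) L n →
      c' * (n : ℝ) ^ (-(11 / 6) : ℝ) ≤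
        ∑ j ∈ (range (n + 1)).filter (fun j : ℕ => |yMu x * j - n| ≤
          A * (n : ℝ) ^ (2 / 3 : ℝ)), rhoLS x L j * ecr (vc x) ^ j := by
  have hx0 : 0 < x := by linarith
  have hx1 : x < 1 := by linarith
  have hx2 : x ≤ 1 / 10 := by linarith
  obtain ⟨hv1, hv2⟩ := vc_range h0 h1
  have hs := scr_vc hx0 hx1
  have hb := sys_bridge hx0 hx1
  obtain ⟨ca, Ka, hca, hKa, hm⟩ := maps_bounds hx0 hx1
  obtain ⟨s1, s2, s3, s4, s5, -, -⟩ := crit_sums hx0 hx2 (Ag_ne_top hx0 hx1)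
  have hu := (uf_vc hx0 hx1).2
  have hnu : Pool.Agent.DiamP.nu (vc x) = alc x := by rw [hu]; rfl
  rw [← hs] at hb
  have key := Pool.Agent.DiamP.windows_sub hv1 hv2 (y := yc x) (by rw [hs] at hb ⊢; exact hb)
    (fun j => by rw [hs]; rfl)
    (by
      have : Pool.Agent.DiamP.nA (vc x) = 1 + alc x + vc x - 3 * alc x * vc x := by
        unfold Pool.Agent.DiamP.nA
        rw [hnu]
      rw [this]
      exact s1)
    (by
      have : Pool.Agent.DiamP.nz (vc x) = vc x * (1 - alc x) ^ 2 := by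
        unfold Pool.Agent.DiamP.nz
        rw [hnu]
      rw [this]
      exact s2)
    s3
    (by
      have : Pool.Agent.DiamP.nS (vc x) = x * ecr (vc x) ^ 2 / (1 + x * ecr (vc x)) := by
        unfold Pool.Agent.DiamP.nS
        rw [Pool.Agent.DiamP.nx_eq, Pool.Agent.DiamP.nE_eq, hs]
      rw [this]
      exact s4)
    (by
      have : Pool.Agent.DiamP.nP (vc x) = ecr (vc x) ^ 2 / (1 + ecr (vc x)) := by
        unfold Pool.Agent.DiamP.nP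
        rw [Pool.Agent.DiamP.nE_eq]
      rw [this]
      exact s5)
    hca
    (fun n hn => by rw [aS_am hx0 hx1]; exact (hm n hn).1)
    (fun n hn => by rw [aS_am hx0 hx1]; exact (hm n hn).2) hcb
  obtain ⟨A, c', hA, hc', n0, hlow⟩ := key
  rw [yLaw_nrm hx0 hx2] at hlow
  refine ⟨A, c', hA, hc', n0, fun L n hn hL => ?_⟩
  have hsub := (subsys hx0 (yc_pos' hx0 hx1) (Ag_ne_top hx0 hx1) L).toSub
  exact hlow _ _ _ _ _ _ _ (by rw [hs]; exact hsub) n hn hL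

/-- maps of small diameter -/
theorem aLS_low (h0 : 0 < x) (h1 : x < 1) {c : ℝ} (hc : 0 < c) :
    ∃ η : ℝ, 0 < η ∧ ∃ n0 : ℕ, ∀ n : ℕ, n0 ≤ n →
      η * (n : ℝ) ^ (-(5 / 2) : ℝ) ≤ aLS x (yc x) ⌊c * (n : ℝ) ^ (1 / 4 : ℝ)⌋₊ n := by
  obtain ⟨η, hη, N0, h⟩ := rng_small_low h0 h1 false (c := c / 2) (by positivity)
  refine ⟨η / 2, by positivity, N0 + 1, fun n hn => ?_⟩
  have hn1 : 1 ≤ n := by omega
  have hn' : (0 : ℝ) < n := by exact_mod_cast hn1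
  have h2 := h n (by omega)
  have h3 : ZN x false n (fun t => (t.rng : ℝ) ≤ c / 2 * (n : ℝ) ^ (1 / 4 : ℝ)) ≤
      ZN x false n (fun t => 2 * t.rng ≤ ⌊c * (n : ℝ) ^ (1 / 4 : ℝ)⌋₊) := by
    refine RS_mono h0 h1 false n fun t ht => ?_
    refine Nat.le_floor ?_
    push_cast
    linarith
  have h4 := tree_aL h0 h1 ⌊c * (n : ℝ) ^ (1 / 4 : ℝ)⌋₊ n hn1
  have h5 := h2.trans (h3.trans h4)
  have h6 : (n : ℝ) ^ (-(3 / 2) : ℝ) = n * (n : ℝ) ^ (-(5 / 2) : ℝ) := by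
    nth_rewrite 2 [← Real.rpow_one (n : ℝ)]
    rw [← Real.rpow_add hn']; norm_num
  have h7 : (n : ℝ) + 1 ≤ 2 * n := by
    have : (1 : ℝ) ≤ n := by exact_mod_cast hn1
    linarith
  have hpow : 0 < (n : ℝ) ^ (-(5 / 2) : ℝ) := by positivity
  have hpos : 0 < aLS x (yc x) ⌊c * (n : ℝ) ^ (1 / 4 : ℝ)⌋₊ n := by
    have h8 : 0 < η * (n : ℝ) ^ (-(3 / 2) : ℝ) := by positivity
    have h9 := lt_of_lt_of_le h8 h5
    by_contra hcon
    push Not at hcon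
    have h10 : ((n : ℝ) + 1) * aLS x (yc x) ⌊c * (n : ℝ) ^ (1 / 4 : ℝ)⌋₊ n ≤ 0 :=
      mul_nonpos_of_nonneg_of_nonpos (by positivity) hcon
    linarith
  rw [h6] at h5
  have h8 : (n : ℝ) * (2 * (η / 2 * (n : ℝ) ^ (-(5 / 2) : ℝ))) ≤
      n * (2 * aLS x (yc x) ⌊c * (n : ℝ) ^ (1 / 4 : ℝ)⌋₊ n) := by
    calc (n : ℝ) * (2 * (η / 2 * (n : ℝ) ^ (-(5 / 2) : ℝ))) =
          η * (n * (n : ℝ) ^ (-(5 / 2) : ℝ)) := by ring
      _ ≤ ((n : ℝ) + 1) * aLS x (yc x) ⌊c * (n : ℝ) ^ (1 / 4 : ℝ)⌋₊ n := h5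
      _ ≤ 2 * n * aLS x (yc x) ⌊c * (n : ℝ) ^ (1 / 4 : ℝ)⌋₊ n :=
          mul_le_mul_of_nonneg_right h7 hpos.le
      _ = _ := by ring
  have h9 := le_of_mul_le_mul_left h8 hn'
  linarith

/-- **windows, lower bound for rigid maps of small diameter** -/
theorem tau_lowD (h0 : 37 / 1000 ≤ x) (h1 : x ≤ 476 / 10000) {c : ℝ} (hc : 0 < c) :
    ∃ A η : ℝ, 0 < A ∧ 0 < η ∧ ∃ n0 : ℕ, ∀ n : ℕ, n0 ≤ n →
      ENNReal.ofReal (η * (n : ℝ) ^ (2 / 3 - 5 / 2 : ℝ)) ≤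
      tauS x (fun k => |yMu x * gE k - n| ≤ A * (n : ℝ) ^ (2 / 3 : ℝ) ∧
        (gdm k : ℝ) ≤ c * (n : ℝ) ^ (1 / 4 : ℝ)) := by
  have hx0 : 0 < x := by linarith
  have hx1 : x < 1 := by linarith
  have hD := ecr_vc_pos hx0 hx1
  obtain ⟨cb, hcb, n1, hcb'⟩ := aLS_low hx0 hx1 hc
  obtain ⟨A, c', hA, hc', n2, hlow⟩ := chap4_sub h0 h1 hcb
  refine ⟨A, c', hA, hc', n1 + n2, fun n hn => ?_⟩
  set L := ⌊c * (n : ℝ) ^ (1 / 4 : ℝ)⌋₊ with hL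
  have hLc : (L : ℝ) ≤ c * (n : ℝ) ^ (1 / 4 : ℝ) := Nat.floor_le (by positivity)
  set J : Finset ℕ := (range (n + 1)).filter
    (fun j : ℕ => |yMu x * j - n| ≤ A * (n : ℝ) ^ (2 / 3 : ℝ)) with hJ
  have h2 : tauS x (fun k => gE k ∈ J ∧ gdm k ≤ L) ≤
      tauS x (fun k => |yMu x * gE k - n| ≤ A * (n : ℝ) ^ (2 / 3 : ℝ) ∧
        (gdm k : ℝ) ≤ c * (n : ℝ) ^ (1 / 4 : ℝ)) := by
    refine tauS_mono fun k _ hk => ⟨?_, ?_⟩
    · have h3 := hk.1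
      rw [hJ, mem_filter] at h3
      exact h3.2
    · refine le_trans ?_ hLc
      exact_mod_cast hk.2
  refine le_trans ?_ h2
  rw [tauS_fin]
  have h3 : ∀ j ∈ J, tauS x (fun k => gE k = j ∧ gdm k ≤ L) =
      ENNReal.ofReal (rhoLS x L j * ecr (vc x) ^ j) := fun j _ => rhoLS_tau hx0 hx1 L j
  have h4 : ∀ j ∈ J, 0 ≤ rhoLS x L j * ecr (vc x) ^ j := fun j _ =>
    mul_nonneg (by unfold rhoLS; exact ENNReal.toReal_nonneg) (by positivity)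
  rw [Finset.sum_congr rfl h3, ← ENNReal.ofReal_sum_of_nonneg h4]
  refine ENNReal.ofReal_le_ofReal ?_
  rw [show (2 / 3 - 5 / 2 : ℝ) = -(11 / 6) by norm_num]
  exact hlow L n (by omega) (hcb' n (by omega))

end Dia
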