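import Pool.Agent.Dia.TauG
import Pool.Agent.DiaB.TauLow

/-!
# Window lower bound for the rigid maps of small diameter at the point `(R0, D0)`
-/

set_option linter.unusedSectionVars false

namespace Dia
open Finset PGr Pool.Agent.DiamP
open scoped ENNReal Classical

theorem rhoLS_low {x : ℝ} (h0 : 37 / 1000 ≤ x) (h1 : x ≤ 476 / 10000) {c : ℝ} (hc : 0 < c) :
    ∃ A η : ℝ, 0 < A ∧ 0 < η ∧ ∃ n0 : ℕ, ∀ n : ℕ, n0 ≤ n →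
      η * (n : ℝ) ^ (-(11 / 6) : ℝ) ≤ ∑ j ∈ (range (n + 1)).filter (fun j : ℕ => |yMu x * j - n| ≤
          A * (n : ℝ) ^ (2 / 3 : ℝ)), rhoLS x ⌊c * (n : ℝ) ^ (1 / 4 : ℝ)⌋₊ j * ecr (vc x) ^ j := by
  have hx0 : 0 < x := by linarith
  have hx1 : x < 1 := by linarith
  obtain ⟨cb, hcb, n1, hcb'⟩ := aLS_low hx0 hx1 hc
  obtain ⟨A, c', hA, hc', n2, hlow⟩ := chap4_sub h0 h1 hcb
  exact ⟨A, c', hA, hc', n1 + n2, fun n hn => hlow _ n (by omega) (hcb' n (by omega))⟩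

theorem yMu_R0 : 0 < yMu R0 := by
  have hx0 : 0 < R0 := by linarith [R0_range.1]
  have hmu := yMu_ge hx0 (by linarith [R0_range.2] : R0 ≤ 1 / 10)
  linarith

theorem tg_lowD {c : ℝ} (hc : 0 < c) : ∃ A η : ℝ, 0 < A ∧ 0 < η ∧ ∃ n0 : ℕ,
    ∀ n : ℕ, n0 ≤ n → ∃ J : Finset ℕ,
      (∀ e ∈ J, |yMu R0 * e - n| ≤ A * (n : ℝ) ^ (2 / 3 : ℝ)) ∧
      η * (n : ℝ) ^ (-(11 / 6) : ℝ) ≤
        ∑ e ∈ J, tauG (PSmall (c * (n : ℝ) ^ (1 / 4 : ℝ))).two e := by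
  have hx0 : 0 < R0 := by linarith [R0_range.1]
  have hx1 : R0 < 1 := by linarith [R0_range.2]
  obtain ⟨A, η, hA, hη, n0, h⟩ := rhoLS_low R0_range.1 R0_range.2 hc
  refine ⟨A, η, hA, hη, n0, fun n hn =>
    ⟨_, fun e he => (mem_filter.1 he).2, (h n hn).trans (sum_le_sum fun e _ => ?_)⟩⟩
  rw [← ENNReal.ofReal_le_ofReal_iff (tauG_nonneg _ _), tauG_eq, ← rhoLS_tau hx0 hx1 _ e]
  refine tauS_mono fun k _ hk => ⟨hk.1, fun x y => ?_⟩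
  have h2 := (gdm_le k _).1 hk.2 x y
  have h3 : ((⌊c * (n : ℝ) ^ (1 / 4 : ℝ)⌋₊ : ℕ) : ℝ) ≤ c * (n : ℝ) ^ (1 / 4 : ℝ) :=
    Nat.floor_le (by positivity)
  exact le_trans (by exact_mod_cast h2) h3

end Dia
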