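import Pool.Agent.Dia.MainA
import Pool.Agent.DiaB.TauB
import Pool.Agent.DiaB.BadU

/-!
# Theorem B: the diameter of the random planar graph is small with positive probability

`main_B`: for every `c > 0` there is `η > 0` such that, for all large `n`, the diameter of the random labelled planar
graph with `n` vertices is at most `c n^(1/4)` with probability at least `η`.

`big_lowD`: `class_low` with the class `PSmall (c n^(1/4))`.  `pairs_split`: if the torso has diameter at most `D` and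
none of the events of `bad_far`, `bad_rest`, `bad_path` holds, the graph has diameter at most
`κ (D + log n) + 2 L + l`.  `count_core`: a planar graph has few core sets.  `gN_up`: upper bound for the number of
planar graphs.
-/

set_option linter.unusedSectionVars false

namespace Dia
open Finset PGr Pool.Agent.DiamP Pool.Agent.DiamP.Hv

theorem LT_mono {n : ℕ} (v e : ℕ) {Q Q' : SimpleGraph (Fin n) → Set (Fin n) → Prop}
    (h : ∀ E X, IsCore E X → Q E X → Q' E X) : pairN n v e Q ≤ pairN n v e Q' := by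
  unfold pairN
  refine div_le_div_of_nonneg_right ?_ (by positivity)
  apply Nat.cast_le.2
  have h1 : ∀ R : SimpleGraph (Fin n) → Set (Fin n) → Prop,
      Nat.card {p : SimpleGraph (Fin n) × Set (Fin n) // IsPlanar p.1 ∧ IsCore p.1 p.2 ∧
        Nat.card p.2 = v ∧ coreE p.1 p.2 = e ∧ R p.1 p.2} =
      Set.ncard {p : SimpleGraph (Fin n) × Set (Fin n) | IsPlanar p.1 ∧
        IsCore p.1 p.2 ∧ Nat.card p.2 = v ∧ coreE p.1 p.2 = e ∧ R p.1 p.2} := fun R =>
    Nat.card_coe_set_eq _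
  rw [h1 Q, h1 Q']
  refine Set.ncard_le_ncard ?_ (Set.toFinite _)
  rintro p ⟨h2, h3, h4, h5, h6⟩
  exact ⟨h2, h3, h4, h5, h _ _ h3 h6⟩

theorem big_lowD {c : ℝ} (hc : 0 < c) : ∃ c1 ε : ℝ, 0 < c1 ∧ 0 < ε ∧ ε < 1 ∧ ∃ n0 : ℕ,
    ∀ n : ℕ, n0 ≤ n → c1 * (n : ℝ) ^ (-(7 / 2) : ℝ) ≤
      sVE n ε (fun v e => kP (PSmall (c * (n : ℝ) ^ (1 / 4 : ℝ))) v e * R0 ^ v * D0 ^ e *
        cvL (SL rL dL gL v e) n) := by
  have hμ := yMu_R0
  have hmu := muS_pos
  set q : ℝ := yMu R0 / muS with hq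
  have hqpos : 0 < q := by positivity
  obtain ⟨A, cA, hA, hcA, n0, hlow⟩ := tg_lowD (c := c / q ^ (1 / 4 : ℝ)) (by positivity)
  set A2 : ℝ := muS / yMu R0 * (A * q ^ (2 / 3 : ℝ) + 1) with hA2
  have hA2pos : 0 < A2 := by positivity
  obtain ⟨c', ε, hc', hε, hε1, hcl⟩ := class_low hA2pos
  set η : ℝ := cA * q ^ (-(11 / 6) : ℝ) with hη
  have hηpos : 0 < η := by positivity
  obtain ⟨n1, hn1⟩ := hcl η hηpos
  obtain ⟨n2, hn2⟩ : ∃ n2 : ℕ, ∀ n : ℕ, n2 ≤ n → ((n0 : ℝ) + 2) ≤ q * n := by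
    have h1 : Filter.Tendsto (fun n : ℕ => q * (n : ℝ)) Filter.atTop Filter.atTop :=
      tendsto_natCast_atTop_atTop.const_mul_atTop hqpos
    exact Filter.eventually_atTop.1 (h1.eventually (Filter.eventually_ge_atTop _))
  refine ⟨c' * η, ε, by positivity, hε, hε1, max (max n1 n2) 1, fun n hn => ?_⟩
  have hnn1 : n1 ≤ n := (le_max_left _ _).trans ((le_max_left _ _).trans hn)
  have hnn2 : n2 ≤ n := (le_max_right _ _).trans ((le_max_left _ _).trans hn)
  have hn1' : 1 ≤ n := (le_max_right _ _).trans hn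
  have hn1r : (1 : ℝ) ≤ n := by exact_mod_cast hn1'
  have hnpos : (0 : ℝ) < n := by linarith
  set n' : ℕ := ⌊q * n⌋₊ with hn'
  have hqn : 0 ≤ q * n := by positivity
  have hfl : (n' : ℝ) ≤ q * n := Nat.floor_le hqn
  have hfl2 : q * n < n' + 1 := Nat.lt_floor_add_one _
  have hn'0 : n0 ≤ n' := by
    apply Nat.le_floor
    have := hn2 n hnn2
    linarith
  have hn'pos : (0 : ℝ) < n' := by
    have := hn2 n hnn2
    have h0 : (0 : ℝ) ≤ n0 := Nat.cast_nonneg _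
    linarith
  obtain ⟨J, hJ1, hJ2⟩ := hlow n' hn'0
  refine hn1 n hnn1 _ (BadD_inv_small _) J ?_ ?_
  · intro e he
    have h1 := hJ1 e he
    have h2 : muS * e - n = muS / yMu R0 * (yMu R0 * e - q * n) := by
      rw [hq]
      field_simp
    have h3 : |yMu R0 * e - q * n| ≤ A * (n' : ℝ) ^ (2 / 3 : ℝ) + 1 := by
      have h4 : |yMu R0 * e - q * n| ≤ |yMu R0 * e - n'| + |(n' : ℝ) - q * n| := abs_sub_le _ _ _
      have h5 : |(n' : ℝ) - q * n| ≤ 1 := by
        rw [abs_le]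
        constructor <;> linarith
      linarith
    have h4 : (n' : ℝ) ^ (2 / 3 : ℝ) ≤ q ^ (2 / 3 : ℝ) * (n : ℝ) ^ (2 / 3 : ℝ) := by
      rw [← Real.mul_rpow hqpos.le hnpos.le]
      exact Real.rpow_le_rpow hn'pos.le hfl (by norm_num)
    have h5 : 1 ≤ (n : ℝ) ^ (2 / 3 : ℝ) := Real.one_le_rpow hn1r (by norm_num)
    rw [h2, abs_mul, abs_of_pos (show 0 < muS / yMu R0 by positivity), hA2]
    calc _ ≤ muS / yMu R0 * (A * (q ^ (2 / 3 : ℝ) * (n : ℝ) ^ (2 / 3 : ℝ)) +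
          (n : ℝ) ^ (2 / 3 : ℝ)) := by
          refine mul_le_mul_of_nonneg_left ?_ (by positivity)
          have h6 := mul_le_mul_of_nonneg_left h4 hA.le
          linarith
      _ = _ := by ring
  · have h1 : η * (n : ℝ) ^ (-(11 / 6) : ℝ) = cA * (q * n) ^ (-(11 / 6) : ℝ) := by
      rw [Real.mul_rpow hqpos.le hnpos.le, hη]
      ring
    rw [h1]
    have h2 : (q * n) ^ (-(11 / 6) : ℝ) ≤ (n' : ℝ) ^ (-(11 / 6) : ℝ) :=
      Real.rpow_le_rpow_of_nonpos hn'pos hfl (by norm_num)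
    refine (mul_le_mul_of_nonneg_left h2 hcA.le).trans (hJ2.trans (sum_le_sum fun e _ => ?_))
    refine tauG_mono (fun V G x y h x' y' => (h x' y').trans ?_) e
    have h3 : (n' : ℝ) ^ (1 / 4 : ℝ) ≤ q ^ (1 / 4 : ℝ) * (n : ℝ) ^ (1 / 4 : ℝ) := by
      rw [← Real.mul_rpow hqpos.le hnpos.le]
      exact Real.rpow_le_rpow hn'pos.le hfl (by norm_num)
    calc c / q ^ (1 / 4 : ℝ) * (n' : ℝ) ^ (1 / 4 : ℝ)
        ≤ c / q ^ (1 / 4 : ℝ) * (q ^ (1 / 4 : ℝ) * (n : ℝ) ^ (1 / 4 : ℝ)) :=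
          mul_le_mul_of_nonneg_left h3 (by positivity)
      _ = c * (n : ℝ) ^ (1 / 4 : ℝ) := by field_simp

/-- upper bound for the distances -/
theorem good_up {n : ℕ} {E : SimpleGraph (Fin n)} {X : Set (Fin n)} (hX : IsCore E X)
    {D κ : ℝ} {L l : ℕ} (hD : 0 ≤ D) (hκ : 0 ≤ κ)
    (h1 : PSmall D _ (torso E X))
    (h3 : ¬ ∃ u, (∃ x ∈ X, E.Reachable u x) ∧ ∀ x ∈ X, L ≤ E.dist u x)
    (h4 : ¬ l ≤ Nat.card {u // ∀ x ∈ X, ¬ E.Reachable u x})
    (h5 : ¬ ∃ x y : X, κ * ((torso E X).dist x y + Real.log n) < E.dist x.1 y.1) :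
    ∀ x y, (E.dist x y : ℝ) ≤ κ * (D + Real.log n) + 2 * L + l := by
  intro u w
  unfold PSmall at h1
  push Not at h3 h4 h5
  have hn : 1 ≤ n := by
    rcases Nat.eq_zero_or_pos n with h | h
    · subst h; exact u.elim0
    · exact h
  have hlog : 0 ≤ Real.log n := Real.log_nonneg (by exact_mod_cast hn)
  by_cases hr : E.Reachable u w
  · by_cases hu : ∃ x ∈ X, E.Reachable u x
    · obtain ⟨z, hz, hz'⟩ := hu
      obtain ⟨x, hx, hx'⟩ := h3 u ⟨z, hz, hz'⟩
      obtain ⟨y, hy, hy'⟩ := h3 w ⟨z, hz, hr.symm.trans hz'⟩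
      have hrx : E.Reachable u x := hz'.trans (core_reach hX ⟨z, hz⟩ ⟨x, hx⟩)
      have hxy' : E.Reachable x y := core_reach hX ⟨x, hx⟩ ⟨y, hy⟩
      have e1 := hrx.dist_triangle_left w
      have e2 := hxy'.dist_triangle_left w
      have e3 : E.dist y w = E.dist w y := SimpleGraph.dist_comm
      have e4 : (E.dist u w : ℝ) ≤ E.dist u x + (E.dist x y + E.dist w y) := by
        rw [← e3]
        exact_mod_cast e1.trans (by omega)
      have e5 := h5 ⟨x, hx⟩ ⟨y, hy⟩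
      have e6 := h1 ⟨x, hx⟩ ⟨y, hy⟩
      have e7 : κ * (((torso E X).dist ⟨x, hx⟩ ⟨y, hy⟩ : ℝ) + Real.log n) ≤
          κ * (D + Real.log n) :=
        mul_le_mul_of_nonneg_left (by linarith) hκ
      have e8 : (E.dist u x : ℝ) ≤ L := by exact_mod_cast hx'.le
      have e9 : (E.dist w y : ℝ) ≤ L := by exact_mod_cast hy'.le
      have e10 : (0 : ℝ) ≤ l := Nat.cast_nonneg l
      simp only at e5
      linarith
    · push Not at hu
      have e1 := MainA_path (fun z => ∀ x ∈ X, ¬ E.Reachable z x) hr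
        (fun z hz x hx hzx => hu x hx (hz.trans hzx))
      have e2 : (E.dist u w : ℝ) ≤ l := by exact_mod_cast (e1.trans h4).le
      have e3 : 0 ≤ κ * (D + Real.log n) := by positivity
      have e4 : (0 : ℝ) ≤ L := Nat.cast_nonneg L
      linarith
  · rw [SimpleGraph.dist_eq_zero_of_not_reachable hr]
    have e3 : 0 ≤ κ * (D + Real.log n) := by positivity
    have e4 : (0 : ℝ) ≤ L := Nat.cast_nonneg L
    have e10 : (0 : ℝ) ≤ l := Nat.cast_nonneg l
    push_cast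
    linarith

theorem pairs_split {n : ℕ} {D κ : ℝ} {L l : ℕ} (hD : 0 ≤ D) (hκ : 0 ≤ κ) (v e : ℕ) :
    pairN n v e (fun E X => PSmall D _ (torso E X)) ≤
      pairN n v e (fun E _ => ∀ x y, (E.dist x y : ℝ) ≤ κ * (D + Real.log n) + 2 * L + l) +
      pairN n v e (fun E X => ∃ u, (∃ x ∈ X, E.Reachable u x) ∧ ∀ x ∈ X, L ≤ E.dist u x) +
      pairN n v e (fun E X => l ≤ Nat.card {u // ∀ x ∈ X, ¬ E.Reachable u x}) +
      pairN n v e (fun E X => ∃ x y : X, κ * ((torso E X).dist x y + Real.log n) <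
        E.dist x.1 y.1) := by
  refine (LT_mono v e (Q' := fun E X =>
    ((((∀ x y, (E.dist x y : ℝ) ≤ κ * (D + Real.log n) + 2 * L + l) ∨
      (∃ u, (∃ x ∈ X, E.Reachable u x) ∧ ∀ x ∈ X, L ≤ E.dist u x)) ∨
      (l ≤ Nat.card {u // ∀ x ∈ X, ¬ E.Reachable u x})) ∨
      (∃ x y : X, κ * ((torso E X).dist x y + Real.log n) < E.dist x.1 y.1)))
    (fun E X hX h1 => ?_)).trans ?_
  · by_contra hcon
    obtain ⟨hcon, n4⟩ := not_or.1 hcon
    obtain ⟨hcon, n3⟩ := not_or.1 hcon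
    obtain ⟨n1, n2⟩ := not_or.1 hcon
    exact n1 (good_up hX hD hκ h1 n2 n3 n4)
  · refine (BadD_or n v e _ _).trans (add_le_add ?_ le_rfl)
    refine (BadD_or n v e _ _).trans (add_le_add ?_ le_rfl)
    exact BadD_or n v e _ _

open Classical in
private theorem card_ind' {α : Type*} [Fintype α] (Q : α → Prop) :
    (Nat.card {a // Q a} : ℝ) = ∑ a, if Q a then (1 : ℝ) else 0 := by
  rw [Nat.card_eq_fintype_card, Fintype.card_subtype, Finset.sum_boole]

/-- a planar graph has at most `6 / ε + 1` large core sets -/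
theorem count_core {n : ℕ} {ε : ℝ} (hε : 0 < ε)
    (hcn : ∀ E : SimpleGraph (Fin n), IsPlanar E →
      (Nat.card {X : Set (Fin n) // IsCore E X ∧ ε * n ≤ coreE E X} : ℝ) ≤ 6 / ε + 1)
    (R : SimpleGraph (Fin n) → Prop) :
    sVE n ε (fun v e => pairN n v e (fun E _ => R E)) ≤
      (6 / ε + 1) * ((Nat.card {E : SimpleGraph (Fin n) // IsPlanar E ∧ R E} : ℝ) /
        n.factorial) := by
  classical
  have hp : ∀ v e, pairN n v e (fun E _ => R E) =
      (∑ p : SimpleGraph (Fin n) × Set (Fin n),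
        (if IsPlanar p.1 ∧ R p.1 ∧ IsCore p.1 p.2 then (1 : ℝ) else 0) *
        ((if Nat.card p.2 = v then 1 else 0) * (if coreE p.1 p.2 = e then 1 else 0))) /
          n.factorial := by
    intro v e
    unfold pairN
    rw [card_ind']
    congr 1
    refine Finset.sum_congr rfl fun p _ => ?_
    by_cases a1 : IsPlanar p.1 <;> by_cases a2 : IsCore p.1 p.2 <;>
      by_cases a3 : Nat.card p.2 = v <;> by_cases a4 : coreE p.1 p.2 = e <;>
      by_cases a5 : R p.1 <;>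
      simp [a1, a2, a4, a5]
  have hs : sVE n ε (fun v e => pairN n v e (fun E _ => R E)) ≤
      (∑ p : SimpleGraph (Fin n) × Set (Fin n),
        (if IsPlanar p.1 ∧ R p.1 ∧ IsCore p.1 p.2 then (1 : ℝ) else 0) *
        (if ε * n ≤ coreE p.1 p.2 then 1 else 0)) / n.factorial := by
    unfold sVE
    simp only [hp]
    simp only [← Finset.sum_div]
    gcongr
    have hc1 : ∀ e : ℕ, ∑ v ∈ range (n + 1), ∑ p : SimpleGraph (Fin n) × Set (Fin n),
        (if IsPlanar p.1 ∧ R p.1 ∧ IsCore p.1 p.2 then (1 : ℝ) else 0) *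
        ((if Nat.card p.2 = v then 1 else 0) * (if coreE p.1 p.2 = e then 1 else 0)) ≤
        ∑ p : SimpleGraph (Fin n) × Set (Fin n),
        (if IsPlanar p.1 ∧ R p.1 ∧ IsCore p.1 p.2 then (1 : ℝ) else 0) *
          (if coreE p.1 p.2 = e then 1 else 0) := by
      intro e
      rw [Finset.sum_comm]
      refine Finset.sum_le_sum fun p _ => ?_
      rw [← Finset.mul_sum, ← Finset.sum_mul]
      refine mul_le_mul_of_nonneg_left ?_ (by split_ifs <;> norm_num)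
      rw [Finset.sum_ite_eq]
      split_ifs <;> norm_num
    refine (Finset.sum_le_sum fun e _ => hc1 e).trans ?_
    rw [Finset.sum_comm]
    refine Finset.sum_le_sum fun p _ => ?_
    rw [← Finset.mul_sum]
    refine mul_le_mul_of_nonneg_left ?_ (by split_ifs <;> norm_num)
    rw [Finset.sum_ite_eq]
    by_cases h3 : coreE p.1 p.2 ∈ (range (3 * n + 1)).filter (fun e : ℕ => ε * n ≤ e)
    · rw [if_pos h3, if_pos (Finset.mem_filter.1 h3).2]
    · rw [if_neg h3]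
      split_ifs <;> norm_num
  refine hs.trans ?_
  rw [Fintype.sum_prod_type]
  have hE : ∀ E : SimpleGraph (Fin n), ∑ X : Set (Fin n),
      (if IsPlanar E ∧ R E ∧ IsCore E X then (1 : ℝ) else 0) *
        (if ε * n ≤ coreE E X then 1 else 0) ≤
        (6 / ε + 1) * (if IsPlanar E ∧ R E then 1 else 0) := by
    intro E
    by_cases hEp : IsPlanar E ∧ R E
    · rw [if_pos hEp, mul_one]
      refine le_trans (le_of_eq ?_) (hcn E hEp.1)
      rw [card_ind']
      refine Finset.sum_congr rfl fun X _ => ?_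
      by_cases a2 : IsCore E X <;> by_cases a3 : ε * n ≤ coreE E X <;>
        simp [hEp.1, hEp.2, a2, a3]
    · rw [if_neg hEp, mul_zero]
      refine le_of_eq (Finset.sum_eq_zero fun X _ => ?_)
      rw [if_neg (fun h => hEp ⟨h.1, h.2.1⟩), zero_mul]
  have hsum := Finset.sum_le_sum fun (E : SimpleGraph (Fin n)) (_ : E ∈ Finset.univ) => hE E
  have hind : (Nat.card {E : SimpleGraph (Fin n) // IsPlanar E ∧ R E} : ℝ) =
      ∑ E : SimpleGraph (Fin n), (if IsPlanar E ∧ R E then (1 : ℝ) else 0) := by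
    rw [card_ind']
    refine Finset.sum_congr rfl fun E _ => ?_
    by_cases h : IsPlanar E ∧ R E
    · rw [if_pos h, if_pos h]
    · rw [if_neg h, if_neg h]
  rw [← Finset.mul_sum, ← hind] at hsum
  rw [← mul_div_assoc]
  gcongr

/-- upper bound for the number of planar graphs -/
theorem gN_up : ∃ K : ℝ, 0 < K ∧ ∃ n0 : ℕ, ∀ n : ℕ, n0 ≤ n →
    gN ⊤ n * rho ^ n ≤ K * (n : ℝ) ^ (-(7 / 2) : ℝ) := by
  classical
  obtain ⟨εc, hεc, n2, hcore⟩ := no_core
  set ε1 : ℝ := min εc (1 / 2) with hε1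
  have hε1pos : 0 < ε1 := lt_min hεc (by norm_num)
  have hε1a : ε1 ≤ εc := min_le_left _ _
  have hε1b : ε1 ≤ 1 / 2 := min_le_right _ _
  have hh : 0 < ε1 / 2 := by linarith
  have hh1 : ε1 / 2 < 1 := by linarith
  obtain ⟨K0, -, -, hgL⟩ := tails
  obtain ⟨K, hK, n1, hup⟩ := all_up hh hh1 hgL (Nat.zero_le 1) (Nat.zero_le 1)
  have hG0 := G0_pos
  have hrho := BadQ_rho
  obtain ⟨n7, hn7⟩ := exists_nat_gt (2 / ε1)
  refine ⟨K * G0 + 1, by positivity, n1 + n2 + n7 + 1, fun n hn => ?_⟩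
  have hn1 : (1 : ℝ) ≤ n := by exact_mod_cast (by omega : 1 ≤ n)
  have hnpos : (0 : ℝ) < n := by linarith
  have hn7' : (n7 : ℝ) ≤ n := by exact_mod_cast (by omega : n7 ≤ n)
  have hn2 : 2 ≤ ε1 * n := by
    have h1 : 2 / ε1 ≤ n := by linarith
    rw [div_le_iff₀ hε1pos] at h1
    linarith
  have hinv : InvPG0 PGT0 := fun _ _ _ _ _ _ => trivial
  have m1 := MainA_pairs (ε := ε1 / 2) n (fun E X => PGT0 _ (torso E X))
  have d5 : gN ((⌊ε1 * n⌋₊ : ℕ) : ℕ∞) n * rho ^ n ≤ (n : ℝ) ^ (-(7 / 2) : ℝ) := by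
    have h1 : ((⌊ε1 * n⌋₊ : ℕ) : ℝ) ≤ εc * n :=
      (Nat.floor_le (by positivity)).trans (mul_le_mul_of_nonneg_right hε1a hnpos.le)
    refine (hcore n (by omega) _ h1).trans ?_
    exact Real.rpow_le_rpow_of_exponent_le hn1 (by norm_num)
  have hcl := BadD_class hinv n (ε1 / 2)
  have hup' := hup n (by omega) n
  have hf : (0 : ℝ) < n.factorial := by exact_mod_cast n.factorial_pos
  have hle : gN ⊤ n ≤ gN ((⌊ε1 * n⌋₊ : ℕ) : ℕ∞) n +
      sVE n (ε1 / 2) (fun v e => pairN n v e (fun E X => PGT0 _ (torso E X))) := by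
    refine le_trans ?_ (add_le_add le_rfl m1)
    have hg : gN ((⌊ε1 * n⌋₊ : ℕ) : ℕ∞) n =
        ((univ.filter fun E : SimpleGraph (Fin n) => IsPlanar E ∧
          CoreLt ((⌊ε1 * n⌋₊ : ℕ) : ℕ∞) E).card : ℝ) / n.factorial := by
      unfold gN
      rw [Nat.card_eq_fintype_card, Fintype.card_subtype]
    rw [MainA_gN, hg, ← add_div, Nat.card_eq_fintype_card, Fintype.card_subtype]
    refine div_le_div_of_nonneg_right ?_ hf.le
    have hsub : (univ.filter fun E : SimpleGraph (Fin n) => IsPlanar E) ⊆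
        (univ.filter fun E : SimpleGraph (Fin n) => IsPlanar E ∧
          CoreLt ((⌊ε1 * n⌋₊ : ℕ) : ℕ∞) E) ∪
        (univ.filter fun p : SimpleGraph (Fin n) × Set (Fin n) => IsPlanar p.1 ∧
          IsCore p.1 p.2 ∧ ε1 / 2 * n ≤ coreE p.1 p.2 ∧
            PGT0 _ (torso p.1 p.2)).image Prod.fst := by
      intro E hE
      rw [mem_filter] at hE
      rw [mem_union]
      by_cases hcl : CoreLt ((⌊ε1 * n⌋₊ : ℕ) : ℕ∞) E
      · left
        rw [mem_filter]
        exact ⟨mem_univ _, hE.2, hcl⟩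
      · right
        unfold CoreLt at hcl
        push Not at hcl
        obtain ⟨X, hX, hM⟩ := hcl
        have hM' : ⌊ε1 * n⌋₊ ≤ coreE E X := by exact_mod_cast hM
        have hM2 : ε1 / 2 * n ≤ coreE E X := by
          have a1 : ε1 * n < ⌊ε1 * n⌋₊ + 1 := Nat.lt_floor_add_one _
          have a2 : (⌊ε1 * n⌋₊ : ℝ) ≤ coreE E X := by exact_mod_cast hM'
          linarith
        rw [mem_image]
        refine ⟨(E, X), ?_, rfl⟩
        rw [mem_filter]
        exact ⟨mem_univ _, hE.2, hX, hM2, trivial⟩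
    have h2 := (card_le_card hsub).trans
      ((card_union_le _ _).trans (Nat.add_le_add_left card_image_le _))
    exact_mod_cast h2
  have h3 := mul_le_mul_of_nonneg_right hle (pow_nonneg hrho.le n)
  rw [add_mul, BadD_mul] at h3
  rw [hcl] at h3
  have h4 := mul_le_mul_of_nonneg_right hup' hG0.le
  have h5 : (0 : ℝ) ≤ (n : ℝ) ^ (-(7 / 2) : ℝ) := Real.rpow_nonneg hnpos.le _
  linarith

/-- `κ (c / (4 κ) n^(1/4) + log n) + 2 L + l ≤ c n^(1/4)` for large `n` -/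
private theorem small_terms {c κ : ℝ} (hc : 0 < c) (hκ : 0 < κ) (l : ℕ) : ∃ n0 : ℕ,
    ∀ n : ℕ, n0 ≤ n → κ * (c / (4 * κ) * (n : ℝ) ^ (1 / 4 : ℝ) + Real.log n) +
      2 * (⌈(n : ℝ) ^ (23 / 100 : ℝ)⌉₊ : ℕ) + l ≤ c * (n : ℝ) ^ (1 / 4 : ℝ) := by
  have h1 := (tendsto_rpow_atTop (show (0 : ℝ) < 1 / 50 by norm_num)).comp
    tendsto_natCast_atTop_atTop
  obtain ⟨n0, hn0⟩ := Filter.eventually_atTop.1
    ((h1.eventually (Filter.eventually_ge_atTop ((κ * (100 / 23) + 4 + l) / (3 * c / 4)))).and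
      (Filter.eventually_ge_atTop 1))
  refine ⟨n0, fun n hn => ?_⟩
  obtain ⟨h2, h3⟩ := hn0 n hn
  have hn1 : (1 : ℝ) ≤ n := by exact_mod_cast h3
  have hnpos : (0 : ℝ) < n := by linarith
  have h2' : (κ * (100 / 23) + 4 + l) / (3 * c / 4) ≤ (n : ℝ) ^ (1 / 50 : ℝ) := h2
  rw [div_le_iff₀ (by positivity)] at h2'
  set z : ℝ := (n : ℝ) ^ (23 / 100 : ℝ) with hz
  have hz1 : 1 ≤ z := Real.one_le_rpow hn1 (by norm_num)
  have hlog : Real.log n ≤ 100 / 23 * z := by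
    have := Real.log_le_rpow_div hnpos.le (ε := 23 / 100) (by norm_num)
    rw [← hz] at this
    linarith
  have hceil : ((⌈z⌉₊ : ℕ) : ℝ) ≤ z + 1 := (Nat.ceil_lt_add_one (by positivity)).le
  have hpow : (n : ℝ) ^ (1 / 4 : ℝ) = (n : ℝ) ^ (1 / 50 : ℝ) * z := by
    rw [hz, ← Real.rpow_add hnpos]
    norm_num
  have hl : (0 : ℝ) ≤ l := Nat.cast_nonneg l
  have h4 : κ * (c / (4 * κ) * (n : ℝ) ^ (1 / 4 : ℝ) + Real.log n) =
      c / 4 * (n : ℝ) ^ (1 / 4 : ℝ) + κ * Real.log n := by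
    field_simp
  have h5 : κ * Real.log n ≤ κ * (100 / 23) * z := by
    rw [mul_assoc]
    exact mul_le_mul_of_nonneg_left hlog hκ.le
  have h6 : (κ * (100 / 23) + 4 + l) * z ≤ 3 * c / 4 * (n : ℝ) ^ (1 / 4 : ℝ) := by
    rw [hpow, ← mul_assoc]
    refine mul_le_mul_of_nonneg_right ?_ (by linarith)
    linarith
  have h7 : (l : ℝ) ≤ l * z := by nlinarith
  rw [h4]
  nlinarith

/-- **Theorem B**: for every `c > 0` the diameter of the random planar graph with `n` labelled vertices is at most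
`c n^(1/4)` with probability at least `η > 0` -/
theorem main_B (c : ℝ) (hc : 0 < c) : ∃ η : ℝ, 0 < η ∧ ∃ n0 : ℕ, ∀ n : ℕ, n0 ≤ n →
    η * Nat.card {G : SimpleGraph (Fin n) // IsPlanar G} ≤
      Nat.card {G : SimpleGraph (Fin n) // IsPlanar G ∧
        ∀ x y, (G.dist x y : ℝ) ≤ c * (n : ℝ) ^ (1 / 4 : ℝ)} := by
  classical
  obtain ⟨κ, hκ, hpath⟩ := bad_path_unif
  have hc' : 0 < c / (4 * κ) := by positivity
  obtain ⟨c1, ε, hc1, hε, hε1, n1, hlow⟩ := big_lowD hc'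
  have hG0 := G0_pos
  have hrho := BadQ_rho
  have hδ : 0 < c1 * G0 / 6 := by positivity
  obtain ⟨n2, hfar⟩ := bad_far hε hε1 hδ
  obtain ⟨l, n3, hrest⟩ := bad_rest hε hε1 hδ
  obtain ⟨n4, hpath'⟩ := hpath hε hε1 hδ
  obtain ⟨n5, hcn⟩ := core_num hε
  obtain ⟨K, hK, n6, hup⟩ := gN_up
  obtain ⟨n7, hsm⟩ := small_terms hc hκ l
  have h6 : 0 < 6 / ε + 1 := by positivity
  refine ⟨c1 * G0 / (2 * (6 / ε + 1) * K), by positivity, n1 + n2 + n3 + n4 + n5 + n6 + n7 + 1,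
    fun n hn => ?_⟩
  have hn1 : (1 : ℝ) ≤ n := by exact_mod_cast (by omega : 1 ≤ n)
  have hnpos : (0 : ℝ) < n := by linarith
  set D : ℝ := c / (4 * κ) * (n : ℝ) ^ (1 / 4 : ℝ) with hD
  have hD0 : 0 ≤ D := by positivity
  set L : ℕ := ⌈(n : ℝ) ^ (23 / 100 : ℝ)⌉₊ with hL
  have d1 := hlow n (by omega)
  have d2 := hfar n (by omega)
  have d3 := hrest n (by omega)
  have d4 := hpath' n (by omega)
  have d6 := hup n (by omega)
  have d7 : κ * (D + Real.log n) + 2 * (L : ℕ) + l ≤ c * (n : ℝ) ^ (1 / 4 : ℝ) := hsm n (by omega)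
  have hcc := count_core hε (hcn n (by omega)) (fun E : SimpleGraph (Fin n) =>
    ∀ x y, (E.dist x y : ℝ) ≤ κ * (D + Real.log n) + 2 * L + l)
  have hcl := BadD_class (BadD_inv_small D) n ε
  -- the sums
  have hsplit : sVE n ε (fun v e => pairN n v e (fun E X => PSmall D _ (torso E X))) ≤
      sVE n ε (fun v e => pairN n v e (fun E _ =>
        ∀ x y, (E.dist x y : ℝ) ≤ κ * (D + Real.log n) + 2 * L + l)) +
      sVE n ε (fun v e => pairN n v e (fun E X =>
        ∃ u, (∃ x ∈ X, E.Reachable u x) ∧ ∀ x ∈ X, L ≤ E.dist u x)) +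
      sVE n ε (fun v e => pairN n v e (fun E X =>
        l ≤ Nat.card {u // ∀ x ∈ X, ¬ E.Reachable u x})) +
      sVE n ε (fun v e => pairN n v e (fun E X =>
        ∃ x y : X, κ * ((torso E X).dist x y + Real.log n) < E.dist x.1 y.1)) := by
    rw [← BadD_add, ← BadD_add, ← BadD_add]
    exact BadD_mono fun v e _ _ _ => pairs_split hD0 hκ.le v e
  have hS := mul_le_mul_of_nonneg_right hsplit (pow_nonneg hrho.le n)
  rw [add_mul, add_mul, add_mul] at hS
  have hS0 : c1 * G0 * (n : ℝ) ^ (-(7 / 2) : ℝ) ≤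
      sVE n ε (fun v e => pairN n v e (fun E X => PSmall D _ (torso E X))) * rho ^ n := by
    rw [BadD_mul, hcl]
    have h1 := mul_le_mul_of_nonneg_right d1 hG0.le
    simp only [Nat.sub_zero]
    linarith
  have hS1 := mul_le_mul_of_nonneg_right hcc (pow_nonneg hrho.le n)
  have hpp : (0 : ℝ) < (n : ℝ) ^ (-(7 / 2) : ℝ) := Real.rpow_pos_of_pos hnpos _
  set Ng : ℝ := (Nat.card {E : SimpleGraph (Fin n) // IsPlanar E ∧
    ∀ x y, (E.dist x y : ℝ) ≤ κ * (D + Real.log n) + 2 * L + l} : ℝ) with hNg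
  have hmain : c1 * G0 / 2 * (n : ℝ) ^ (-(7 / 2) : ℝ) ≤
      (6 / ε + 1) * (Ng / n.factorial) * rho ^ n := by
    linarith
  rw [MainA_gN] at d6
  set N : ℝ := (Nat.card {G : SimpleGraph (Fin n) // IsPlanar G} : ℝ) with hN
  have hf : (0 : ℝ) < n.factorial := by exact_mod_cast n.factorial_pos
  have hw : 0 < rho ^ n / n.factorial := by positivity
  have hfinal : c1 * G0 / (2 * (6 / ε + 1) * K) * N ≤ Ng := by
    have h1 : c1 * G0 / (2 * (6 / ε + 1) * K) * N * (rho ^ n / n.factorial) ≤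
        Ng * (rho ^ n / n.factorial) := by
      have e1 : c1 * G0 / (2 * (6 / ε + 1) * K) * N * (rho ^ n / n.factorial) =
          c1 * G0 / (2 * (6 / ε + 1) * K) * (N / n.factorial * rho ^ n) := by ring
      rw [e1]
      have e2 : c1 * G0 / (2 * (6 / ε + 1) * K) * (N / n.factorial * rho ^ n) ≤
          c1 * G0 / (2 * (6 / ε + 1) * K) * (K * (n : ℝ) ^ (-(7 / 2) : ℝ)) :=
        mul_le_mul_of_nonneg_left d6 (by positivity)
      have e3 : c1 * G0 / (2 * (6 / ε + 1) * K) * (K * (n : ℝ) ^ (-(7 / 2) : ℝ)) =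
          (c1 * G0 / 2 * (n : ℝ) ^ (-(7 / 2) : ℝ)) / (6 / ε + 1) := by
        field_simp
      have e4 : (c1 * G0 / 2 * (n : ℝ) ^ (-(7 / 2) : ℝ)) / (6 / ε + 1) ≤
          Ng * (rho ^ n / n.factorial) := by
        rw [div_le_iff₀ h6]
        calc _ ≤ _ := hmain
          _ = _ := by ring
      linarith
    exact le_of_mul_le_mul_right h1 hw
  refine hfinal.trans ?_
  rw [hNg]
  apply Nat.cast_le.2
  refine Nat.card_le_card_of_injective
    (fun E : {E : SimpleGraph (Fin n) // IsPlanar E ∧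
      ∀ x y, (E.dist x y : ℝ) ≤ κ * (D + Real.log n) + 2 * L + l} =>
      (⟨E.1, E.2.1, fun x y => (E.2.2 x y).trans d7⟩ : {G : SimpleGraph (Fin n) // IsPlanar G ∧
        ∀ x y, (G.dist x y : ℝ) ≤ c * (n : ℝ) ^ (1 / 4 : ℝ)})) ?_
  intro a b h
  exact Subtype.ext (congrArg (fun z => z.1) h)

end Dia
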