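import Pool.Agent.DiaB.LowTail

/-!
# No sequence is the order of the diameter with high probability

If `P(c f(n) ≤ diam ≤ C f(n)) → 1`, then by Theorem A `f(n) ≥ (c1 / C) n^(1/4)` for large `n`, and by Theorem B the
diameter is smaller than `c f(n)` with probability at least `η > 0`.
-/

set_option linter.unusedSectionVars false

namespace Dia
open Finset PGr

private theorem NS_meet {n : ℕ} {Q1 Q2 : SimpleGraph (Fin n) → Prop}
    (h : (Nat.card {G : SimpleGraph (Fin n) // IsPlanar G} : ℝ) <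
      (Nat.card {G : SimpleGraph (Fin n) // IsPlanar G ∧ Q1 G} : ℝ) +
      (Nat.card {G : SimpleGraph (Fin n) // IsPlanar G ∧ Q2 G} : ℝ)) :
    ∃ G : SimpleGraph (Fin n), Q1 G ∧ Q2 G := by
  classical
  by_contra hcon
  push Not at hcon
  apply absurd h
  rw [not_lt]
  rw [Nat.card_eq_fintype_card, Nat.card_eq_fintype_card, Nat.card_eq_fintype_card,
    Fintype.card_subtype, Fintype.card_subtype, Fintype.card_subtype]
  have h1 : Disjoint (univ.filter fun G : SimpleGraph (Fin n) => IsPlanar G ∧ Q1 G)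
      (univ.filter fun G : SimpleGraph (Fin n) => IsPlanar G ∧ Q2 G) := by
    rw [Finset.disjoint_left]
    intro G hG1 hG2
    rw [mem_filter] at hG1 hG2
    exact hcon G hG1.2.2 hG2.2.2
  have h2 : (univ.filter fun G : SimpleGraph (Fin n) => IsPlanar G ∧ Q1 G) ∪
      (univ.filter fun G : SimpleGraph (Fin n) => IsPlanar G ∧ Q2 G) ⊆
      univ.filter fun G : SimpleGraph (Fin n) => IsPlanar G := by
    intro G hG
    rw [mem_union, mem_filter, mem_filter] at hG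
    rw [mem_filter]
    rcases hG with hG | hG
    · exact ⟨mem_univ _, hG.2.1⟩
    · exact ⟨mem_univ _, hG.2.1⟩
  have h3 := card_le_card h2
  rw [card_union_of_disjoint h1] at h3
  exact_mod_cast h3

theorem planar_pos (n : ℕ) : (0 : ℝ) < Nat.card {G : SimpleGraph (Fin n) // IsPlanar G} := by
  have : Nonempty {G : SimpleGraph (Fin n) // IsPlanar G} := ⟨⟨⊥, planar_bot⟩⟩
  exact_mod_cast Nat.card_pos

/-- there is no sequence `f` and constants `0 < c ≤ C` such that `c f(n) ≤ diam ≤ C f(n)` with high probability -/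
theorem no_scale : ¬ ∃ (f : ℕ → ℝ) (c C : ℝ), 0 < c ∧ c ≤ C ∧
    Filter.Tendsto (fun n : ℕ => (Nat.card {G : SimpleGraph (Fin n) // IsPlanar G ∧
      (∃ x y, c * f n ≤ G.dist x y) ∧ ∀ x y, (G.dist x y : ℝ) ≤ C * f n} : ℝ) /
      Nat.card {G : SimpleGraph (Fin n) // IsPlanar G}) Filter.atTop (nhds 1) := by
  rintro ⟨f, c, C, hc, hcC, hlim⟩
  have hC : 0 < C := lt_of_lt_of_le hc hcC
  obtain ⟨c1, C1, hc1, hC1, nA, hA⟩ := main_A (1 / 2) (by norm_num)
  obtain ⟨η, hη, nB, hB⟩ := main_B (c * c1 / (2 * C)) (by positivity)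
  set θ : ℝ := min (1 / 2) η / 2 with hθ
  have hθ0 : 0 < θ := by
    have : 0 < min (1 / 2) η := lt_min (by norm_num) hη
    linarith
  have hθ1 : θ < 1 / 2 := by
    have : min (1 / 2) η ≤ 1 / 2 := min_le_left _ _
    linarith
  have hθ2 : θ < η := by
    have h1 : min (1 / 2) η ≤ η := min_le_right _ _
    linarith
  have hev := hlim.eventually (lt_mem_nhds (show (1 : ℝ) - θ < 1 by linarith))
  obtain ⟨nf, hf⟩ := Filter.eventually_atTop.1 hev
  set n := nA + nB + nf + 1 with hn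
  have hN := planar_pos n
  have h1 := hf n (by omega)
  rw [lt_div_iff₀ hN] at h1
  have h2 := hA n (by omega)
  have h3 := hB n (by omega)
  obtain ⟨G, hG1, hG2⟩ := NS_meet (n := n)
    (Q1 := fun G => (∃ x y, c * f n ≤ G.dist x y) ∧ ∀ x y, (G.dist x y : ℝ) ≤ C * f n)
    (Q2 := fun G => (∃ x y, c1 * (n : ℝ) ^ (1 / 4 : ℝ) ≤ G.dist x y) ∧
        ∀ x y, (G.dist x y : ℝ) ≤ C1 * (n : ℝ) ^ (1 / 4 : ℝ)) (by
      nlinarith)
  obtain ⟨H, hH1, hH2⟩ := NS_meet (n := n)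
    (Q1 := fun G => (∃ x y, c * f n ≤ G.dist x y) ∧ ∀ x y, (G.dist x y : ℝ) ≤ C * f n)
    (Q2 := fun G => ∀ x y, (G.dist x y : ℝ) ≤ c * c1 / (2 * C) * (n : ℝ) ^ (1 / 4 : ℝ)) (by
      nlinarith)
  have hnpos : (0 : ℝ) < n := by exact_mod_cast (by omega : 0 < n)
  have hp : (0 : ℝ) < (n : ℝ) ^ (1 / 4 : ℝ) := Real.rpow_pos_of_pos hnpos _
  obtain ⟨⟨x, y, hxy⟩, -⟩ := hG2
  have h4 := hG1.2 x y
  obtain ⟨⟨x', y', hxy'⟩, -⟩ := hH1
  have h5 := hH2 x' y'
  have h6 : c1 * (n : ℝ) ^ (1 / 4 : ℝ) ≤ C * f n := hxy.trans h4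
  have h7 : c * f n ≤ c * c1 / (2 * C) * (n : ℝ) ^ (1 / 4 : ℝ) := hxy'.trans h5
  have h8 : c * (c1 * (n : ℝ) ^ (1 / 4 : ℝ)) ≤ c * (C * f n) := mul_le_mul_of_nonneg_left h6 hc.le
  have h9 : C * (c * f n) ≤ C * (c * c1 / (2 * C) * (n : ℝ) ^ (1 / 4 : ℝ)) :=
    mul_le_mul_of_nonneg_left h7 hC.le
  have h10 : C * (c * c1 / (2 * C) * (n : ℝ) ^ (1 / 4 : ℝ)) =
      c * c1 * (n : ℝ) ^ (1 / 4 : ℝ) / 2 := by
    field_simp
  have h11 : 0 < c * c1 * (n : ℝ) ^ (1 / 4 : ℝ) := by positivity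
  nlinarith

end Dia
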