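import Pool.Agent.Dia.TMark

/-!
# Trees with a marked vertex and restricted hanging trees (Theorem B' of MP_d7a93a_pr)

`Q` is a class of trees.  We count the vertices with a given path such that all the trees which hang
from the path belong to `Q`.
-/

set_option linter.unusedSectionVars false

namespace Dia
open Finset Pool.Agent.DiamP
open scoped ENNReal Classical

/-- all children of the root belong to `Q` -/
def LT.kg (Q : LT → Prop) : LT → Prop
  | .nil => True
  | .node _ c r => Q c ∧ r.kg Q

/-- the subtrees at the vertices with path `p` such that all trees hanging from the path belong to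
`Q` -/
noncomputable def LT.occQ (Q : LT → Prop) : List SignType → LT → List LT
  | [], t => [t]
  | _ :: _, .nil => []
  | d :: p, .node d' c r => (if d = d' ∧ r.kg Q then LT.occQ Q p c else []) ++
      (if Q c then LT.occQ Q (d :: p) r else [])

section
variable (Q : LT → Prop)

/-- series of the trees in `Q` -/
noncomputable def XQ (x : ℝ) (u : Bool) : PowerSeries ℝ :=
  PowerSeries.mk fun N => ∑ t ∈ LT.all N, if Q t then t.w x u else 0

/-- series of the trees all of whose children belong to `Q` -/
noncomputable def HQ (x : ℝ) (u : Bool) : PowerSeries ℝ :=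
  PowerSeries.mk fun N => ∑ t ∈ LT.all N, if t.kg Q then t.w x u else 0

noncomputable def LqQ (x : ℝ) : PowerSeries ℝ :=
  (1 - PowerSeries.X * XQ Q x true - PowerSeries.X * XQ Q x false)⁻¹

noncomputable def LpQ (x : ℝ) : PowerSeries ℝ :=
  (1 - PowerSeries.X * XQ Q x true - 2 * (PowerSeries.X * XQ Q x false))⁻¹

/-- the kernel series -/
noncomputable def KPQ (x : ℝ) (u : Bool) (d : SignType) : PowerSeries ℝ :=
  if u = true ∨ d = 1 then PowerSeries.X * (PowerSeries.C x * LpQ Q x ^ 2)
  else PowerSeries.X * (PowerSeries.C x * LpQ Q x ^ 2 + PowerSeries.C (1 - x) * LqQ Q x ^ 2)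

noncomputable def kkQ (x : ℝ) (u : Bool) (d : SignType) : ℕ → ℝ := cf x (KPQ Q x u d)

/-- kernels along a path -/
noncomputable def kksQ (x : ℝ) : Bool → List SignType → List (ℕ → ℝ)
  | _, [] => []
  | u, d :: p => kkQ Q x u d :: kksQ x (decide (d = -1)) p

/-- marked series -/
noncomputable def MSQ (x : ℝ) (f : LT → ℝ) (p : List SignType) (u : Bool) : PowerSeries ℝ :=
  PowerSeries.mk fun N => ∑ t ∈ LT.all N, t.w x u * ((LT.occQ Q p t).map f).sum

end

/-! ### algebra -/

theorem RMark_alg1 {R : Type*} [CommRing R] {t X1 X0 H1 Lp G S' x : R}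
    (hL : Lp * (1 - t * X1 - 2 * (t * X0)) = 1) (hH1 : H1 = x * Lp)
    (hG : G = t * (S' * H1 + (X1 + 2 * X0) * G)) : G = t * (x * Lp ^ 2) * S' := by
  linear_combination (-G) * hL + Lp * hG + Lp * t * S' * hH1

theorem RMark_alg2 {R : Type*} [CommRing R] {t X1 X0 H1 Lp Lq G G1 S' x : R}
    (hL : Lp * (1 - t * X1 - 2 * (t * X0)) = 1) (hL' : Lq * (1 - t * X1 - t * X0) = 1)
    (hH1 : H1 = x * Lp) (hG1 : G1 = t * (x * Lp ^ 2) * S')
    (hG : G = t * (S' * H1 + (X1 + X0) * G + X0 * G1)) : G = t * (x * Lp ^ 2) * S' := by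
  have h1 : Lq * (1 + t * X0 * Lp) = Lp := by
    linear_combination (-Lq) * hL + Lp * hL'
  linear_combination (-G) * hL' + Lq * hG + Lq * t * S' * hH1 + Lq * t * X0 * hG1 +
    t * S' * x * Lp * h1

theorem RMark_alg3 {R : Type*} [CommRing R] {t X1 X0 H0 Lp Lq G G1 S' x y : R}
    (hL : Lp * (1 - t * X1 - 2 * (t * X0)) = 1) (hL' : Lq * (1 - t * X1 - t * X0) = 1)
    (hH0 : H0 = x * Lp + y * Lq) (hG1 : G1 = t * (x * Lp ^ 2) * S')
    (hG : G = t * (S' * H0 + (X1 + X0) * G + X0 * G1)) :
    G = t * (x * Lp ^ 2 + y * Lq ^ 2) * S' := by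
  have h1 : Lq * (1 + t * X0 * Lp) = Lp := by
    linear_combination (-Lq) * hL + Lp * hL'
  linear_combination (-G) * hL' + Lq * hG + Lq * t * S' * hH0 + Lq * t * X0 * hG1 +
    t * S' * x * Lp * h1

/-- `H1 = x + t (X1 + 2 X0) H1` -/
theorem RMark_algH1 {R : Type*} [CommRing R] {t X1 X0 H1 Lp x : R}
    (hL : Lp * (1 - t * X1 - 2 * (t * X0)) = 1)
    (hH : H1 = x + t * ((X1 + 2 * X0) * H1)) : H1 = x * Lp := by
  linear_combination (-H1) * hL + Lp * hH

/-- `H0 = 1 + t ((X1 + X0) H0 + X0 H1)` -/
theorem RMark_algH0 {R : Type*} [CommRing R] {t X1 X0 H0 H1 Lp Lq x y : R}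
    (hL : Lp * (1 - t * X1 - 2 * (t * X0)) = 1) (hL' : Lq * (1 - t * X1 - t * X0) = 1)
    (hH1 : H1 = x * Lp) (hxy : x + y = 1)
    (hH : H0 = 1 + t * ((X1 + X0) * H0 + X0 * H1)) : H0 = x * Lp + y * Lq := by
  have h1 : Lq * (1 + t * X0 * Lp) = Lp := by
    linear_combination (-Lq) * hL + Lp * hL'
  linear_combination (-H0) * hL' + Lq * hH + Lq * t * X0 * hH1 + x * h1 - Lq * hxy

/-! ### the series -/

theorem LpQ_inv (Q : LT → Prop) (x : ℝ) : LpQ Q x *
    (1 - PowerSeries.X * XQ Q x true - 2 * (PowerSeries.X * XQ Q x false)) = 1 := by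
  unfold LpQ
  refine PowerSeries.inv_mul_cancel _ ?_
  simp

theorem LqQ_inv (Q : LT → Prop) (x : ℝ) : LqQ Q x *
    (1 - PowerSeries.X * XQ Q x true - PowerSeries.X * XQ Q x false) = 1 := by
  unfold LqQ
  refine PowerSeries.inv_mul_cancel _ ?_
  simp

theorem HQ_rec (Q : LT → Prop) (x : ℝ) (u : Bool) :
    HQ Q x u = PowerSeries.C (if u then x else 1) +
      PowerSeries.X * ∑ d' : SignType, XQ Q x (decide (d' = -1)) * HQ Q x (u || decide (d' = 1)) := by
  ext N
  cases N with
  | zero =>
    rw [map_add, PowerSeries.coeff_zero_X_mul, HQ, PowerSeries.coeff_mk, LT.all_zero,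
      Finset.sum_singleton, PowerSeries.coeff_zero_C, add_zero, TAll_w_nil]
    simp [LT.kg]
  | succ n =>
    rw [map_add, PowerSeries.coeff_succ_X_mul, HQ, PowerSeries.coeff_mk, LT.sum_all_succ, map_sum]
    have hC : (PowerSeries.coeff (n + 1)) (PowerSeries.C (if u then x else 1)) = (0 : ℝ) := by
      rw [PowerSeries.coeff_C, if_neg (by omega)]
    rw [hC, zero_add]
    refine Finset.sum_congr rfl fun d' _ => ?_
    rw [PowerSeries.coeff_mul]
    refine Finset.sum_congr rfl fun ij _ => ?_
    simp only [XQ, HQ, PowerSeries.coeff_mk]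
    rw [Finset.sum_mul_sum]
    refine Finset.sum_congr rfl fun c _ => Finset.sum_congr rfl fun r _ => ?_
    rw [w_node]
    by_cases h1 : Q c
    · by_cases h2 : r.kg Q
      · rw [if_pos (show (LT.node d' c r).kg Q from ⟨h1, h2⟩), if_pos h1, if_pos h2]
      · rw [if_neg (show ¬ (LT.node d' c r).kg Q from fun h => h2 h.2), if_neg h2, mul_zero]
    · rw [if_neg (show ¬ (LT.node d' c r).kg Q from fun h => h1 h.1), if_neg h1, zero_mul]

theorem HQ_true (Q : LT → Prop) (x : ℝ) : HQ Q x true = PowerSeries.C x * LpQ Q x := by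
  have h := HQ_rec Q x true
  rw [sum_sign] at h
  refine RMark_algH1 (LpQ_inv Q x) (h.trans ?_)
  simp only [Bool.true_or, if_true]
  rw [show decide ((0 : SignType) = -1) = false from by decide, decide_true,
    show decide ((1 : SignType) = -1) = false from by decide]
  ring

theorem HQ_false (Q : LT → Prop) (x : ℝ) :
    HQ Q x false = PowerSeries.C x * LpQ Q x + PowerSeries.C (1 - x) * LqQ Q x := by
  have h := HQ_rec Q x false
  rw [sum_sign] at h
  refine RMark_algH0 (LpQ_inv Q x) (LqQ_inv Q x) (HQ_true Q x) ?_ (h.trans ?_)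
  · rw [← map_add]
    simp
  · simp only [Bool.false_or, Bool.false_eq_true, if_false, map_one]
    rw [show decide ((0 : SignType) = -1) = false from by decide, decide_true,
      show decide ((1 : SignType) = -1) = false from by decide,
      show decide ((0 : SignType) = 1) = false from by decide,
      show decide ((-1 : SignType) = 1) = false from by decide]
    ring

theorem occQ_node_sum (Q : LT → Prop) (f : LT → ℝ) (d d' : SignType) (p : List SignType)
    (c r : LT) : ((LT.occQ Q (d :: p) (LT.node d' c r)).map f).sum =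
      (if d = d' ∧ r.kg Q then ((LT.occQ Q p c).map f).sum else 0) +
      (if Q c then ((LT.occQ Q (d :: p) r).map f).sum else 0) := by
  rw [LT.occQ, List.map_append, List.sum_append]
  split_ifs <;> simp

theorem MSQ_cons (Q : LT → Prop) (x : ℝ) (f : LT → ℝ) (d : SignType) (p : List SignType)
    (u : Bool) : MSQ Q x f (d :: p) u = PowerSeries.X *
      (MSQ Q x f p (decide (d = -1)) * HQ Q x (u || decide (d = 1)) +
      ∑ d' : SignType, XQ Q x (decide (d' = -1)) * MSQ Q x f (d :: p) (u || decide (d' = 1))) := by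
  ext N
  cases N with
  | zero =>
    rw [PowerSeries.coeff_zero_X_mul, MSQ, PowerSeries.coeff_mk, LT.all_zero, Finset.sum_singleton,
      LT.occQ]
    simp
  | succ n =>
    rw [PowerSeries.coeff_succ_X_mul, MSQ, PowerSeries.coeff_mk, LT.sum_all_succ, map_add, map_sum,
      PowerSeries.coeff_mul]
    simp only [PowerSeries.coeff_mul]
    have h1 : ∀ (d' : SignType) (ij : ℕ × ℕ),
        ∑ c ∈ LT.all ij.1, ∑ r ∈ LT.all ij.2, (LT.node d' c r).w x u *
          ((LT.occQ Q (d :: p) (LT.node d' c r)).map f).sum =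
        (if d = d' then PowerSeries.coeff ij.1 (MSQ Q x f p (decide (d = -1))) *
          PowerSeries.coeff ij.2 (HQ Q x (u || decide (d = 1))) else 0) +
        PowerSeries.coeff ij.1 (XQ Q x (decide (d' = -1))) *
          PowerSeries.coeff ij.2 (MSQ Q x f (d :: p) (u || decide (d' = 1))) := by
      intro d' ij
      simp only [MSQ, XQ, HQ, PowerSeries.coeff_mk]
      rw [Finset.sum_mul_sum, Finset.sum_mul_sum]
      have h2 : ∀ c r : LT, (LT.node d' c r).w x u *
          ((LT.occQ Q (d :: p) (LT.node d' c r)).map f).sum =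
          (if d = d' then c.w x (decide (d = -1)) * ((LT.occQ Q p c).map f).sum *
            (if r.kg Q then r.w x (u || decide (d = 1)) else 0) else 0) +
          (if Q c then c.w x (decide (d' = -1)) else 0) *
            (r.w x (u || decide (d' = 1)) * ((LT.occQ Q (d :: p) r).map f).sum) := by
        intro c r
        rw [w_node, occQ_node_sum]
        by_cases h : d = d'
        · subst h
          by_cases h3 : r.kg Q <;> by_cases h4 : Q c <;> simp [h3, h4] <;> ring
        · by_cases h4 : Q c <;> simp [h, h4]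
          ring
      simp only [h2, Finset.sum_add_distrib]
      congr 1
      split_ifs with h
      · rfl
      · simp
    simp only [h1, Finset.sum_add_distrib]
    congr 1
    rw [Finset.sum_comm]
    refine Finset.sum_congr rfl fun ij _ => ?_
    rw [Finset.sum_ite_eq]
    simp

theorem MSQ_cons' (Q : LT → Prop) (x : ℝ) (f : LT → ℝ) (d : SignType) (p : List SignType)
    (u : Bool) : MSQ Q x f (d :: p) u = KPQ Q x u d * MSQ Q x f p (decide (d = -1)) := by
  have hL := LpQ_inv Q x
  have hL' := LqQ_inv Q x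
  have hH1 := HQ_true Q x
  have hH0 := HQ_false Q x
  have h1 := MSQ_cons Q x f d p true
  rw [sum_sign] at h1
  have e1 : MSQ Q x f (d :: p) true = PowerSeries.X *
      (MSQ Q x f p (decide (d = -1)) * HQ Q x true + (XQ Q x true + 2 * XQ Q x false) *
        MSQ Q x f (d :: p) true) := by
    refine h1.trans ?_
    simp only [Bool.true_or]
    rw [show decide ((0 : SignType) = -1) = false from by decide, decide_true,
      show decide ((1 : SignType) = -1) = false from by decide]
    ring
  have g1 := RMark_alg1 hL hH1 e1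
  cases u with
  | true =>
    rw [KPQ, if_pos (Or.inl rfl)]
    exact g1
  | false =>
    have h0 := MSQ_cons Q x f d p false
    rw [sum_sign] at h0
    have e0 : MSQ Q x f (d :: p) false = PowerSeries.X *
        (MSQ Q x f p (decide (d = -1)) * HQ Q x (decide (d = 1)) +
          (XQ Q x true + XQ Q x false) * MSQ Q x f (d :: p) false +
          XQ Q x false * MSQ Q x f (d :: p) true) := by
      refine h0.trans ?_
      simp only [Bool.false_or]
      rw [show decide ((0 : SignType) = -1) = false from by decide, decide_true,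
        show decide ((1 : SignType) = -1) = false from by decide,
        show decide ((0 : SignType) = 1) = false from by decide,
        show decide ((-1 : SignType) = 1) = false from by decide]
      ring
    by_cases hd : d = 1
    · rw [KPQ, if_pos (Or.inr hd)]
      rw [show decide (d = 1) = true from decide_eq_true hd] at e0
      exact RMark_alg2 hL hL' hH1 g1 e0
    · rw [KPQ, if_neg (by simp [hd])]
      rw [show decide (d = 1) = false from decide_eq_false hd] at e0
      exact RMark_alg3 hL hL' hH0 g1 e0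

/-! ### coefficients -/

theorem MSQ_path (Q : LT → Prop) (x : ℝ) (f : LT → ℝ) (p : List SignType) (u : Bool) :
    PowerSeries.rescale (yc x) (MSQ Q x f p u) = PowerSeries.mk (cvL (kksQ Q x u p)) *
      PowerSeries.rescale (yc x) (MSQ Q x f [] (pst u p)) := by
  induction p generalizing u with
  | nil =>
    have h1 : PowerSeries.mk (cvL (kksQ Q x u [])) = 1 := by
      ext n
      rw [PowerSeries.coeff_mk, PowerSeries.coeff_one]
      rfl
    have h2 : pst u [] = u := rfl
    rw [h1, one_mul, h2]
  | cons d p ih =>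
    rw [MSQ_cons', map_mul, ih, pst_cons, kksQ, cvL_cons, Dia.mk_cv, kkQ, mk_cf, mul_assoc]

/-- **restricted marking** -/
theorem markQ (Q : LT → Prop) (x : ℝ) (up : Bool) (p : List SignType) (f : LT → ℝ) (N : ℕ) :
    (∑ t ∈ LT.all N, t.w x up * ((LT.occQ Q p t).map f).sum) * yc x ^ N =
      cv (cvL (kksQ Q x up p))
        (fun m => (∑ s ∈ LT.all m, s.w x (pst up p) * f s) * yc x ^ m) N := by
  have h := congrArg (PowerSeries.coeff N) (MSQ_path Q x f p up)
  rw [PowerSeries.coeff_rescale, MSQ, PowerSeries.coeff_mk] at h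
  rw [mul_comm, h, PowerSeries.coeff_mul]
  unfold cv
  refine Finset.sum_congr rfl fun ij _ => ?_
  rw [PowerSeries.coeff_mk, PowerSeries.coeff_rescale, MSQ, PowerSeries.coeff_mk]
  have : ∀ s : LT, ((LT.occQ Q [] s).map f).sum = f s := by
    intro s
    rw [LT.occQ]
    simp
  simp only [this]
  ring

end Dia
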