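import Pool.Agent.DiaB.RMark
import Pool.Agent.Dia.TOcc
import Pool.Agent.Dia.WStat

/-!
# Restricted trees have small labels (Theorem B' of MP_d7a93a_pr)
-/

set_option linter.unusedSectionVars false

namespace Dia
open Finset Pool.Agent.DiamP
open scoped Classical

/-- all labels are smaller than `L` -/
def Near (L : ℕ) (t : LT) : Prop := ∀ z ∈ t.labels, |z| < L

theorem near_iff (L : ℕ) (t : LT) : Near L t ↔ ¬ t.Far L := by
  unfold Near LT.Far
  push_neg
  rfl

theorem near_nil {L : ℕ} (hL : 1 ≤ L) : Near L LT.nil := by
  intro z hz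
  simp only [LT.labels, Finset.mem_singleton] at hz
  subst hz
  simp only [abs_zero]
  omega

theorem kg_labels {L : ℕ} : ∀ t : LT, t.kg (Near L) → ∀ z ∈ t.labels, |z| ≤ L
  | .nil, _, z, hz => by
    simp only [LT.labels, Finset.mem_singleton] at hz
    subst hz
    simp
  | .node d c r, h, z, hz => by
    obtain ⟨h1, h2⟩ := h
    simp only [LT.labels, Finset.mem_union, Finset.mem_image] at hz
    rcases hz with ⟨z', hz', rfl⟩ | hz
    · have h3 := h1 z' hz'
      have h4 := TOcc_sign d
      rw [abs_lt] at h3
      rw [abs_le]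
      constructor <;> omega
    · exact kg_labels r h2 z hz

theorem occQ_labels {L : ℕ} (t : LT) : ∀ (p : List SignType) (l0 : ℤ), WPS L l0 p →
    (∃ s ∈ LT.occQ (Near L) p t, Near L s) → ∀ z ∈ t.labels, |l0 + z| ≤ 2 * L := by
  induction t with
  | nil =>
    intro p l0 hp _ z hz
    simp only [LT.labels, Finset.mem_singleton] at hz
    subst hz
    have h1 := hp 0 (Nat.zero_le _)
    simp only [List.take_zero, W_psum_nil, add_zero] at h1
    rw [add_zero]
    have : (0 : ℤ) ≤ L := Int.natCast_nonneg L
    omega
  | node d' c r ihc ihr =>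
    intro p l0 hp hs z hz
    have hLn : (0 : ℤ) ≤ L := Int.natCast_nonneg L
    cases p with
    | nil =>
      obtain ⟨s, hs1, hs2⟩ := hs
      simp only [LT.occQ, List.mem_singleton] at hs1
      subst hs1
      have h1 := hp 0 (Nat.zero_le _)
      simp only [List.take_zero, W_psum_nil, add_zero] at h1
      have h2 := hs2 z hz
      rw [abs_le] at h1 ⊢
      rw [abs_lt] at h2
      constructor <;> omega
    | cons d p =>
      obtain ⟨s, hs1, hs2⟩ := hs
      have hp' := (WPS_cons L l0 d p).1 hp
      have hl0 := hp'.1
      rw [abs_le] at hl0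
      have hd' := TOcc_sign d'
      rw [LT.occQ, List.mem_append] at hs1
      simp only [LT.labels, Finset.mem_union, Finset.mem_image] at hz
      rcases hs1 with hs1 | hs1
      · split_ifs at hs1 with hc
        · obtain ⟨rfl, hkg⟩ := hc
          rcases hz with ⟨z', hz', rfl⟩ | hz
          · have h3 := ihc p (l0 + d) hp'.2 ⟨s, hs1, hs2⟩ z' hz'
            have e : l0 + (z' + (d : ℤ)) = l0 + d + z' := by ring
            rw [e]
            exact h3
          · have h3 := kg_labels r hkg z hz
            rw [abs_le] at h3 ⊢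
            constructor <;> omega
        · exact absurd hs1 List.not_mem_nil
      · split_ifs at hs1 with hc
        · rcases hz with ⟨z', hz', rfl⟩ | hz
          · have h3 := hc z' hz'
            rw [abs_lt] at h3
            rw [abs_le]
            constructor <;> omega
          · exact ihr (d :: p) l0 hp ⟨s, hs1, hs2⟩ z hz
        · exact absurd hs1 List.not_mem_nil

theorem strip_WPS {L : ℕ} {p : List SignType} (h : Strip L p) : WPS L 0 p := by
  intro k hk
  rw [zero_add]
  exact h k hk

theorem rng_le_of_labels {t : LT} {M : ℕ} (h : ∀ z ∈ t.labels, |z| ≤ M) : t.rng ≤ 2 * M := by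
  have h1 := h _ (t.labels.max'_mem ⟨0, t.zero_mem_labels⟩)
  have h2 := h _ (t.labels.min'_mem ⟨0, t.zero_mem_labels⟩)
  rw [abs_le] at h1 h2
  unfold LT.rng
  omega

/-- a marked vertex with restricted hanging trees gives a small range -/
theorem occQ_rng {L : ℕ} (hL : 1 ≤ L) {t : LT} {p : List SignType} (hp : Strip L p)
    (hs : LT.nil ∈ LT.occQ (Near L) p t) : t.rng ≤ 4 * L := by
  have h1 := occQ_labels t p 0 (strip_WPS hp) ⟨LT.nil, hs, near_nil hL⟩
  have h2 : t.rng ≤ 2 * (2 * L) := by
    refine rng_le_of_labels fun z hz => ?_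
    have := h1 z hz
    rw [zero_add] at this
    push_cast
    exact this
  omega

theorem occQ_sublist (Q : LT → Prop) (t : LT) : ∀ p : List SignType,
    List.Sublist (LT.occQ Q p t) (LT.occ p t) := by
  induction t with
  | nil =>
    intro p
    cases p with
    | nil => simp [LT.occQ, LT.occ]
    | cons d p => simp [LT.occQ, LT.occ]
  | node d' c r ihc ihr =>
    intro p
    cases p with
    | nil => simp [LT.occQ, LT.occ]
    | cons d p =>
      rw [LT.occQ, LT.occ]
      refine List.Sublist.append ?_ ?_
      · by_cases h : d = d'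
        · by_cases h2 : r.kg Q
          · rw [if_pos ⟨h, h2⟩, if_pos h]
            exact ihc p
          · rw [if_neg fun h3 => h2 h3.2]
            exact List.nil_sublist _
        · rw [if_neg fun h3 => h h3.1]
          exact List.nil_sublist _
      · split_ifs
        · exact ihr (d :: p)
        · exact List.nil_sublist _

/-- indicator of the empty tree -/
noncomputable def fnil (s : LT) : ℝ := if s = LT.nil then 1 else 0

theorem sum_fnil_le (l : List LT) : (l.map fnil).sum ≤ l.length := by
  induction l with
  | nil => simp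
  | cons s l ih =>
    rw [List.map_cons, List.sum_cons, List.length_cons]
    have : fnil s ≤ 1 := by unfold fnil; split_ifs <;> norm_num
    push_cast
    linarith

theorem sum_fnil_pos {l : List LT} (h : (l.map fnil).sum ≠ 0) : LT.nil ∈ l := by
  induction l with
  | nil => simp at h
  | cons s l ih =>
    by_cases hs : s = LT.nil
    · simp [hs]
    · refine List.mem_cons_of_mem _ (ih ?_)
      rw [List.map_cons, List.sum_cons] at h
      have : fnil s = 0 := by unfold fnil; rw [if_neg hs]
      rwa [this, zero_add] at h

theorem sum_fnil_nonneg (l : List LT) : 0 ≤ (l.map fnil).sum := by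
  induction l with
  | nil => simp
  | cons s l ih =>
    rw [List.map_cons, List.sum_cons]
    have : 0 ≤ fnil s := by unfold fnil; split_ifs <;> norm_num
    linarith

/-- the number of marked vertices -/
theorem occQ_count {L : ℕ} (hL : 1 ≤ L) (t : LT) (S : Finset ℕ) (hS : ∀ h ∈ S, h ≤ t.size) :
    ∑ h ∈ S, ∑ p ∈ paths h, (if Strip L p then ((LT.occQ (Near L) p t).map fnil).sum else 0) ≤
      if t.rng ≤ 4 * L then (t.size : ℝ) + 1 else 0 := by
  split_ifs with hr
  · have h1 := LT.occ_count t (t.size + 1) (by omega)
    have h2 : ((t.size : ℝ) + 1) = ∑ h ∈ range (t.size + 1), ∑ p ∈ paths h,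
        ((LT.occ p t).length : ℝ) := by
      have h3 : ((t.size + 1 : ℕ) : ℝ) = ((∑ h ∈ range (t.size + 1), ∑ p ∈ paths h,
        (LT.occ p t).length : ℕ) : ℝ) := by rw [h1]
      push_cast at h3
      exact h3
    rw [h2]
    refine le_trans (sum_le_sum fun h _ => sum_le_sum (g := fun p => ((LT.occ p t).length : ℝ))
      fun p _ => ?_) (sum_le_sum_of_subset_of_nonneg ?_ fun h _ _ =>
        sum_nonneg fun p _ => Nat.cast_nonneg _)
    · split_ifs
      · refine (sum_fnil_le _).trans ?_
        exact_mod_cast (occQ_sublist (Near L) t p).length_le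
      · exact Nat.cast_nonneg _
    · intro h hh
      exact mem_range.2 (by have := hS h hh; omega)
  · refine le_of_eq (sum_eq_zero fun h _ => sum_eq_zero fun p _ => ?_)
    split_ifs with hp
    · by_contra hne
      exact hr (occQ_rng hL hp (sum_fnil_pos hne))
    · rfl

end Dia
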